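import Pool.Agent.H45.EGH.S2

/-!
# EGH: statements of the modules, part 3 (six quadrics, spaces of dimension four; the theorem)
-/

set_option autoImplicit false

namespace Pool.EGH

open MvPolynomial

section Defs3

variable {K : Type} [Field K]

/-- A four dimensional space of degree 2 with too small growth. -/
structure C4 (Q : Ideal (PR K 6)) (U : Submodule K (PR K 6 ⧸ Q)) : Prop where
  ci : CI 6 Q
  le : U ≤ gp Q 2
  dim : Module.finrank K U = 4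
  kf : KF Q U
  d9 : dg Q U ≤ 9

/-- An element `u` of such a space, killed by `w` which does not kill the space, and the linear
forms `C` which kill `w U`. -/
structure D4 (Q : Ideal (PR K 6)) (U : Submodule K (PR K 6 ⧸ Q)) (u w : PR K 6 ⧸ Q)
    (C : Submodule K (PR K 6 ⧸ Q)) : Prop where
  c4 : C4 Q U
  hu : u ∈ U
  u0 : u ≠ 0
  hw : w ∈ gp Q 2
  wu : w * u = 0
  wU : ∃ v ∈ U, w * v ≠ 0
  hC : C = ann Q 1 (ml w U)

/-- The linear maps `τ` from `C` to `U` with `c τ(c') = c' τ(c)`. -/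
def TT {Q : Ideal (PR K 6)} (C U : Submodule K (PR K 6 ⧸ Q)) :
    Submodule K (↥C →ₗ[K] ↥U) where
  carrier := {τ | ∀ c c' : C, (c : PR K 6 ⧸ Q) * (τ c' : PR K 6 ⧸ Q) = c' * (τ c : PR K 6 ⧸ Q)}
  add_mem' := fun ha hb c c' => by
    rw [LinearMap.add_apply, LinearMap.add_apply, Submodule.coe_add, Submodule.coe_add, mul_add,
      mul_add, ha c c', hb c c']
  zero_mem' := fun c c' => by
    rw [LinearMap.zero_apply, LinearMap.zero_apply, Submodule.coe_zero, mul_zero, mul_zero]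
  smul_mem' := fun a τ h c c' => by
    rw [LinearMap.smul_apply, LinearMap.smul_apply, Submodule.coe_smul, Submodule.coe_smul,
      mul_smul_comm, mul_smul_comm, h c c']

end Defs3

/-- RK4: the ranks of quadrics on `U`. -/
def RK4Stmt : Prop :=
  ∀ (K : Type) [Field K] [IsAlgClosed K] (Q : Ideal (PR K 6))
    (U : Submodule K (PR K 6 ⧸ Q)), C4 Q U → dg Q U = 9 ∧
    ∀ w ∈ gp Q 2, (∀ v ∈ U, w * v = 0) ∨ (3 ≤ Module.finrank K ↥(ml w U) ∧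
      (Module.finrank K ↥(ml w U) = 3 → dg Q (ml w U) = 3))

/-- NR4: no reducible quadric kills `U`. -/
def NR4Stmt : Prop :=
  ∀ (K : Type) [Field K] [IsAlgClosed K] (Q : Ideal (PR K 6))
    (U : Submodule K (PR K 6 ⧸ Q)), C4 Q U → ∀ l ∈ gp Q 1, ∀ m ∈ gp Q 1, l ≠ 0 → m ≠ 0 →
    ∃ v ∈ U, l * m * v ≠ 0

/-- R11: the dimension of `A_2 U`. -/
def R11Stmt : Prop :=
  ∀ (K : Type) [Field K] [IsAlgClosed K] (Q : Ideal (PR K 6))
    (U : Submodule K (PR K 6 ⧸ Q)), C4 Q U → 11 ≤ Module.finrank K ↥(gp Q 2 * U)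

/-- STR: the structure attached to `u`. -/
def STRStmt : Prop :=
  ∀ (K : Type) [Field K] [IsAlgClosed K] (Q : Ideal (PR K 6))
    (U : Submodule K (PR K 6 ⧸ Q)) (u w : PR K 6 ⧸ Q) (C : Submodule K (PR K 6 ⧸ Q)),
    D4 Q U u w C → Module.finrank K ↥(ml w U) = 3 ∧ C ≤ gp Q 1 ∧ Module.finrank K C = 3 ∧
    Module.finrank K ↥(gp Q 1 * C) = 12 ∧ ann Q 4 C = ml w U ∧
    (∀ v ∈ U, w * v = 0 → ∃ a : K, v = a • u) ∧
    (∀ y ∈ gp Q 2, (∀ v ∈ U, y * v = 0) → y ∈ gp Q 1 * C) ∧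
    ∀ c ∈ C, ∀ g ∈ U, ∃ l ∈ gp Q 1, c * g = l * u

/-- CNT: the count. -/
def CNTStmt : Prop :=
  ∀ (K : Type) [Field K] [IsAlgClosed K] (Q : Ideal (PR K 6))
    (U : Submodule K (PR K 6 ⧸ Q)) (u w : PR K 6 ⧸ Q) (C : Submodule K (PR K 6 ⧸ Q)),
    D4 Q U u w C → 2 ≤ Module.finrank K ↥(TT C U)

/-- KRO: Kronecker's normal form of a pencil of injective maps from dimension 3 to 4. -/
def KROStmt : Prop :=
  ∀ (K : Type) [Field K] [IsAlgClosed K] (C U : Type) [AddCommGroup C] [Module K C]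
    [AddCommGroup U] [Module K U], Module.finrank K C = 3 → Module.finrank K U = 4 →
    ∀ τ₁ τ₂ : C →ₗ[K] U,
    (∀ (s t : K) (c : C), s • τ₁ c + t • τ₂ c = 0 → c = 0 ∨ (s = 0 ∧ t = 0)) →
    ∃ (e : Module.Basis (Fin 3) K C) (v : Module.Basis (Fin 4) K U),
      ∀ i : Fin 3, τ₁ (e i) = v i.castSucc ∧ τ₂ (e i) = v i.succ

/-- PR4: a coprime pencil. -/
def PR4Stmt : Prop :=
  ∀ (K : Type) [Field K] [IsAlgClosed K] (Q : Ideal (PR K 6))
    (U : Submodule K (PR K 6 ⧸ Q)) (u w : PR K 6 ⧸ Q) (C : Submodule K (PR K 6 ⧸ Q)),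
    D4 Q U u w C → ∃ g ∈ U, ∃ g' ∈ U,
      (∀ a b d : K, a • g + b • g' + d • u = 0 → a = 0 ∧ b = 0 ∧ d = 0) ∧
      ∀ c ∈ C, ∀ c' ∈ C, c * g + c' * g' = 0 → c = 0 ∧ c' = 0

/-- QE3: the quotient by three linear forms with few quadrics. -/
def QE3Stmt : Prop :=
  ∀ (K : Type) [Field K] [Infinite K] (Q : Ideal (PR K 6)) (C : Submodule K (PR K 6 ⧸ Q)),
    CI 6 Q → C ≤ gp Q 1 → Module.finrank K C = 3 → Module.finrank K ↥(gp Q 1 * C) = 12 →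
    MCI 3 3 (upI Q C) ∧
    ∀ (i : ℕ) (f : PR K 6), f ∈ fm K 6 (i + 1) →
      (f ∈ upI Q C ↔ Ideal.Quotient.mk Q f ∈ gp Q i * C)

/-- ZE3: the dual generator of the quotient by three linear forms with few quadrics. -/
def ZE3Stmt : Prop :=
  ∀ (K : Type) [Field K] [Infinite K] (Q : Ideal (PR K 6)) (C : Submodule K (PR K 6 ⧸ Q)),
    CI 6 Q → C ≤ gp Q 1 → Module.finrank K C = 3 → Module.finrank K ↥(gp Q 1 * C) = 12 →
    ∃ ζ ∈ gp Q 3, (∀ c ∈ C, c * ζ = 0) ∧ (∀ x ∈ gp Q 1, x * ζ = 0 → x ∈ C) ∧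
      (∀ y ∈ gp Q 2, y * ζ = 0 → y ∈ gp Q 1 * C) ∧ ∀ y ∈ ann Q 4 C, ∃ x ∈ gp Q 1, y = x * ζ

/-- E3L: minors of syzygies do not vanish. -/
def E3LStmt : Prop :=
  ∀ (K : Type) [Field K] [Infinite K] (Q : Ideal (PR K 6)) (C : Submodule K (PR K 6 ⧸ Q))
    (x x' : PR K 6 ⧸ Q) (M : Submodule K ((PR K 6 ⧸ Q) × (PR K 6 ⧸ Q))),
    CI 6 Q → C ≤ gp Q 1 → Module.finrank K C = 3 → Module.finrank K ↥(gp Q 1 * C) = 12 →
    x ∈ gp Q 1 → x' ∈ gp Q 1 → (∀ a b : K, a • x + b • x' ∈ C → a = 0 ∧ b = 0) →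
    (∀ p ∈ M, p.1 ∈ gp Q 1 ∧ p.2 ∈ gp Q 1) → 3 ≤ Module.finrank K M →
    (∀ p ∈ M, p.1 ∈ C → p.2 ∈ C → p = 0) →
    (∀ p ∈ M, p.1 * x + p.2 * x' ∈ gp Q 1 * C) →
    (∀ p ∈ M, ∀ p' ∈ M, p.1 * p'.2 - p'.1 * p.2 ∈ gp Q 1 * C) → False

/-- JJ4: spaces of dimension four. -/
def JJ4Stmt : Prop :=
  ∀ (K : Type) [Field K] [IsAlgClosed K] (Q : Ideal (PR K 6))
    (U : Submodule K (PR K 6 ⧸ Q)), ¬ C4 Q U

/-- P66: growth of spaces of degree 2. -/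
def P66Stmt : Prop :=
  ∀ (K : Type) [Field K] [IsAlgClosed K] (Q : Ideal (PR K 6))
    (U : Submodule K (PR K 6 ⧸ Q)), CI 6 Q → U ≤ gp Q 2 →
    20 ≤ dg Q U + b2 (15 - Module.finrank K U)

/-- G62: growth from degree 2 to degree 3, six quadrics. -/
def G62Stmt : Prop :=
  ∀ (K : Type) [Field K] [IsAlgClosed K] (Q I : Ideal (PR K 6)), CI 6 Q → Hg I → Q ≤ I →
    hf I 3 ≤ b2 (hf I 2)

/-- G63: growth from degree 3 to degree 4, six quadrics. -/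
def G63Stmt : Prop :=
  ∀ (K : Type) [Field K] [IsAlgClosed K] (Q I : Ideal (PR K 6)), CI 6 Q → Hg I → Q ≤ I →
    hf I 4 ≤ b3 (hf I 3)

/-- The growth bound. -/
def bd (i h : ℕ) : ℕ :=
  match i with
  | 1 => h.choose 2
  | 2 => b2 h
  | 3 => b3 h
  | 4 => b4 h
  | 5 => if h = 6 then 1 else 0
  | _ => 0

/-- GRO: growth in all degrees, at most six quadrics. -/
def GROStmt : Prop :=
  ∀ (K : Type) [Field K] [IsAlgClosed K] (n : ℕ) (Q I : Ideal (PR K n)), n ≤ 6 → CI n Q →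
    Hg I → Q ≤ I → ∀ i, 1 ≤ i → hf I i ≤ n.choose i ∧ hf I (i + 1) ≤ bd i (hf I i)

/-- MAC: Macaulay representations. -/
def MACStmt : Prop :=
  ∀ (i h : ℕ) (m : ℕ → ℕ), 1 ≤ i → h ≤ Nat.choose 6 i →
    (∀ k : ℕ, 1 ≤ k → k < i → m k < m (k + 1)) → h = ∑ k ∈ Finset.Icc 1 i, (m k).choose k →
    bd i h ≤ ∑ k ∈ Finset.Icc 1 i, (m k).choose (k + 1)

/-- The theorem: the conjecture for at most six variables. -/
def MainStmt : Prop :=
  ∀ (K : Type) [Field K] (n : ℕ) (I : Ideal (MvPolynomial (Fin n) K)), n ≤ 6 →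
    (∀ f ∈ I, ∀ d : ℕ, MvPolynomial.homogeneousComponent d f ∈ I) →
    (∃ rs : List (MvPolynomial (Fin n) K), rs.length = n ∧
        (∀ f ∈ rs, f.IsHomogeneous 2 ∧ f ∈ I) ∧
        RingTheory.Sequence.IsRegular (MvPolynomial (Fin n) K) rs) →
    ∀ (i : ℕ), 1 ≤ i →
      ∀ m : ℕ → ℕ, (∀ k : ℕ, 1 ≤ k → k < i → m k < m (k + 1)) →
        Module.finrank K (MvPolynomial.homogeneousSubmodule (Fin n) K i) -
            Module.finrank K
              ↥(I.restrictScalars K ⊓ MvPolynomial.homogeneousSubmodule (Fin n) K i)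
          = ∑ k ∈ Finset.Icc 1 i, (m k).choose k →
        Module.finrank K (MvPolynomial.homogeneousSubmodule (Fin n) K (i + 1)) -
            Module.finrank K
              ↥(I.restrictScalars K ⊓ MvPolynomial.homogeneousSubmodule (Fin n) K (i + 1))
          ≤ ∑ k ∈ Finset.Icc 1 i, (m k).choose (k + 1)

end Pool.EGH
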