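import Pool.Agent.H45.EGH.S2
import Pool.Agent.H61.EGH.FIN

/-!
# EGH, row GPM
-/

set_option autoImplicit false

namespace Pool.EGH

open MvPolynomial

/-- GPM: the pieces are finite dimensional and multiply well. -/
theorem t_gpm : GPMStmt := by
  intro K _ N Q
  have hmap : ∀ i, gp Q i = ((fm K N 1) ^ i).map (Ideal.Quotient.mkₐ K Q).toLinearMap := by
    intro i
    unfold gp fm
    rw [homogeneousSubmodule_one_pow]
  have hpow : ∀ i, gp Q i = (gp Q 1) ^ i := by
    intro i
    rw [hmap i, Submodule.map_pow]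
    rfl
  have h0 : gp Q 0 = 1 := (hpow 0).trans (Submodule.pow_zero _)
  have hadd : ∀ i j, gp Q i * gp Q j = gp Q (i + j) := by
    intro i j
    rcases Nat.eq_zero_or_pos j with rfl | hj
    · rw [h0, add_zero]
      exact Submodule.mul_one _
    · rw [hpow i, hpow j, hpow (i + j)]
      exact (Submodule.pow_add _ (by omega)).symm
  refine ⟨fun i => ?_, hadd, fun V => ?_, fun i f hf => ⟨f, hf, rfl⟩⟩
  · have : Module.Finite K ↥(fm K N i) := t_FIN K N i
    unfold gp
    infer_instance
  · rw [h0]
    exact Submodule.one_mul _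

end Pool.EGH
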