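import Pool.Agent.H45.EGH.S1

/-!
# EGH, row LSH
-/

set_option autoImplicit false

namespace Pool.EGH

open MvPolynomial

/-- LSH: the shape of the ideals generated by a regular sequence of linear forms. -/
theorem t_lsh : LSHStmt := by
  intro K _ N k J h
  generalize hr : (0 : ℕ) = r at h
  induction h with
  | zero =>
    refine ⟨⊥, bot_le, finrank_bot K _, ?_⟩
    rw [Submodule.bot_coe]
    exact (Ideal.span_singleton_eq_bot.2 rfl).symm
  | @lin k J l hJ hl hreg ih =>
    obtain ⟨L, hL1, hL2, hL3⟩ := ih rfl
    have hfin1 : Module.Finite K ↥(fm K N 1) :=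
      Module.Finite.iff_fg.2 (homogeneousSubmodule_fg (σ := Fin N) (R := K) 1)
    have hfinL : Module.Finite K ↥L := Submodule.finiteDimensional_of_le hL1
    have hlL : l ∉ L := by
      intro hlL
      have h1 : l ∈ J := by rw [hL3]; exact Ideal.subset_span hlL
      have h2 : (1 : PR K N) ∈ J := hreg 1 (by rw [mul_one]; exact h1)
      have h3 : J ≤ RingHom.ker (constantCoeff : PR K N →+* K) := by
        rw [hL3, Ideal.span_le]
        intro x hx
        have hx1 : x.IsHomogeneous 1 := hL1 hx
        change constantCoeff x = 0
        rw [constantCoeff_eq]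
        by_contra hne
        have := hx1 hne
        simp at this
      have h4 := h3 h2
      rw [RingHom.mem_ker, map_one] at h4
      exact one_ne_zero h4
    refine ⟨L ⊔ Submodule.span K {l}, ?_, ?_, ?_⟩
    · refine sup_le hL1 ?_
      rw [Submodule.span_singleton_le_iff_mem]
      exact hl
    · have hne : l ≠ 0 := fun h0 => hlL (h0 ▸ zero_mem L)
      have hinf : L ⊓ Submodule.span K {l} = ⊥ := by
        rw [Submodule.eq_bot_iff]
        rintro x ⟨hx1, hx2⟩
        obtain ⟨c, rfl⟩ := Submodule.mem_span_singleton.1 hx2
        by_cases hc : c = 0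
        · rw [hc, zero_smul]
        · exfalso
          apply hlL
          have := L.smul_mem c⁻¹ hx1
          rwa [smul_smul, inv_mul_cancel₀ hc, one_smul] at this
      have h5 := Submodule.finrank_sup_add_finrank_inf_eq L (Submodule.span K {l})
      rw [hinf, finrank_bot, finrank_span_singleton hne, hL2] at h5
      omega
    · rw [hL3]
      apply le_antisymm
      · refine sup_le (Ideal.span_mono ?_) (Ideal.span_mono ?_)
        · exact fun x hx => (le_sup_left : L ≤ _) hx
        · rintro x rfl
          exact (le_sup_right : Submodule.span K {x} ≤ _) (Submodule.mem_span_singleton_self x)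
      · rw [Ideal.span_le]
        intro x hx
        obtain ⟨a, ha, b, hb, rfl⟩ := Submodule.mem_sup.1 hx
        obtain ⟨c, rfl⟩ := Submodule.mem_span_singleton.1 hb
        refine add_mem (Ideal.mem_sup_left (Ideal.subset_span ha)) (Ideal.mem_sup_right ?_)
        rw [smul_eq_C_mul]
        exact Ideal.mul_mem_left _ _ (Ideal.subset_span rfl)
  | quad _ _ _ _ => omega

end Pool.EGH
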