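import Pool.Agent.H45.EGH.S3

/-!
# EGH, row CNT: the count
-/

set_option autoImplicit false

namespace Pool.EGH

open MvPolynomial

namespace CNZ

variable {K : Type} [Field K] {Q : Ideal (PR K 6)}

/-- The map `(c, g) -> θ`, `c g = θ u`. -/
theorem theta_unique {U : Submodule K (PR K 6 ⧸ Q)} (hkf : KF Q U) {u : PR K 6 ⧸ Q} (hu : u ∈ U)
    (u0 : u ≠ 0) {l l' : PR K 6 ⧸ Q} (hl : l ∈ gp Q 1) (hl' : l' ∈ gp Q 1) (h : l * u = l' * u) :
    l = l' := by
  have h1 : (l - l') * u = 0 := by rw [sub_mul, h, sub_self]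
  rcases hkf (l - l') (sub_mem hl hl') u hu h1 with h2 | h2
  · exact sub_eq_zero.1 h2
  · exact absurd h2 u0

theorem lin_aux {K V W A : Type} [Field K] [AddCommGroup V] [Module K V] [AddCommGroup W]
    [Module K W] [AddCommGroup A] [Module K A] [Module.Finite K V] [Module.Finite K W]
    (Λ : V →ₗ[K] W) (M : W →ₗ[K] A) :
    Module.finrank K V ≤ Module.finrank K (LinearMap.ker Λ) + Module.finrank K (LinearMap.ker M) +
      Module.finrank K ((LinearMap.range Λ).map M) := by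
  have h1 := LinearMap.finrank_range_add_finrank_ker (M.domRestrict (LinearMap.range Λ))
  rw [LinearMap.range_domRestrict] at h1
  have h2 := LinearMap.finrank_range_add_finrank_ker Λ
  have h3 : Module.finrank K (LinearMap.ker (M.domRestrict (LinearMap.range Λ))) ≤
      Module.finrank K (LinearMap.ker M) := by
    let f : LinearMap.ker (M.domRestrict (LinearMap.range Λ)) →ₗ[K] LinearMap.ker M :=
      ((LinearMap.range Λ).subtype ∘ₗ (LinearMap.ker _).subtype).codRestrict _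
        (fun x => by
          have := x.2
          rw [LinearMap.mem_ker] at this ⊢
          exact this)
    apply LinearMap.finrank_le_finrank_of_injective (f := f)
    intro x y hxy
    apply Subtype.ext
    apply Subtype.ext
    exact congrArg (fun z : LinearMap.ker M => (z : W)) hxy
  omega

theorem lin_aux2 {K W A : Type} [Field K] [AddCommGroup W]
    [Module K W] [AddCommGroup A] [Module K A] [Module.Finite K W] (M : W →ₗ[K] A) :
    Module.finrank K (LinearMap.range M) + Module.finrank K (LinearMap.ker M) =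
      Module.finrank K W := LinearMap.finrank_range_add_finrank_ker M

end CNZ

theorem t_cnt (hgpm : GPMStmt) (hann : ANNStmt) (hrnk : RNKStmt) (hstr : STRStmt)
    (hrk4 : RK4Stmt) (hr11 : R11Stmt) (hgpd : GPDStmt) : CNTStmt := by
  classical
  intro K _ _ Q U u w C hD
  obtain ⟨hml3, hC1, hC3, hC12, hC4, hker, hkill, hth⟩ := hstr K Q U u w C hD
  have hc4 := hD.c4
  have hci := hc4.ci
  have hfin := (hgpm K 6 Q).1
  have hmul := (hgpm K 6 Q).2.1
  have hfU : Module.Finite K U := Submodule.finiteDimensional_of_le hc4.le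
  have hfC : Module.Finite K C := Submodule.finiteDimensional_of_le hC1
  -- the bilinear map theta
  have hth' : ∀ (c : C) (g : U), ∃ l : gp Q 1, (c : PR K 6 ⧸ Q) * g = l * u := by
    intro c g
    obtain ⟨l, hl, h⟩ := hth c c.2 g g.2
    exact ⟨⟨l, hl⟩, h⟩
  choose th hth using hth'
  have huni : ∀ l l' : gp Q 1, (l : PR K 6 ⧸ Q) * u = l' * u → l = l' := fun l l' h =>
    Subtype.ext (CNZ.theta_unique hc4.kf hD.hu hD.u0 l.2 l'.2 h)
  let θ : C →ₗ[K] U →ₗ[K] gp Q 1 := LinearMap.mk₂ K th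
    (fun c c' g => huni _ _ (by
      rw [← hth, Submodule.coe_add, Submodule.coe_add, add_mul, add_mul, hth, hth]))
    (fun a c g => huni _ _ (by
      rw [← hth, Submodule.coe_smul, Submodule.coe_smul, smul_mul_assoc, smul_mul_assoc, hth]))
    (fun c g g' => huni _ _ (by
      rw [← hth, Submodule.coe_add, Submodule.coe_add, mul_add, add_mul, hth, hth]))
    (fun a c g => huni _ _ (by
      rw [← hth, Submodule.coe_smul, Submodule.coe_smul, mul_smul_comm, smul_mul_assoc, hth]))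
  have hθ : ∀ (c : C) (g : U), (c : PR K 6 ⧸ Q) * g = (θ c g : PR K 6 ⧸ Q) * u := hth
  -- a basis of `C`
  let b : Module.Basis (Fin 3) K C := Module.finBasisOfFinrankEq K C hC3
  -- minors kill `U`
  have hminor : ∀ (c c' : C) (g v : U),
      ((c : PR K 6 ⧸ Q) * θ c' g - c' * θ c g) * v = 0 := by
    intro c c' g
    set y : PR K 6 ⧸ Q := (c : PR K 6 ⧸ Q) * θ c' g - c' * θ c g with hy
    have hy2 : y ∈ gp Q 2 := by
      have h1 : ∀ (a b : PR K 6 ⧸ Q), a ∈ gp Q 1 → b ∈ gp Q 1 → a * b ∈ gp Q 2 := by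
        intro a b ha hb
        rw [← hmul 1 1]
        exact Submodule.mul_mem_mul ha hb
      exact sub_mem (h1 _ _ (hC1 c.2) (θ c' g).2) (h1 _ _ (hC1 c'.2) (θ c g).2)
    have hyu : y * u = 0 := by
      rw [hy, sub_mul, mul_assoc, mul_assoc, ← hθ, ← hθ]
      ring
    have hyg : y * g = 0 := by
      rw [hy, sub_mul]
      have e1 : (c : PR K 6 ⧸ Q) * θ c' g * g = θ c' g * (c * g) := by ring
      have e2 : (c' : PR K 6 ⧸ Q) * θ c g * g = θ c g * (c' * g) := by ring
      rw [e1, e2, hθ, hθ]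
      ring
    rcases (hrk4 K Q U hc4).2 y hy2 with h | ⟨h3, h3'⟩
    · intro v; exact h v v.2
    · -- the kernel has dimension one, so `g` is a multiple of `u`
      have hr := (hrnk K 6 2 Q y U hc4.le).1
      rw [hc4.dim] at hr
      have h1 : Module.finrank K (kr y U) ≤ 1 := by omega
      have hukr : u ∈ kr y U := ⟨hD.hu, by simpa using hyu⟩
      have hgkr : (g : PR K 6 ⧸ Q) ∈ kr y U := ⟨g.2, by simpa using hyg⟩
      have hle : kr y U ≤ U := inf_le_left
      have : Module.Finite K (kr y U) := Submodule.finiteDimensional_of_le hle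
      obtain ⟨a, ha⟩ : ∃ a : K, (g : PR K 6 ⧸ Q) = a • u := by
        have h2 : Module.finrank K (kr y U) = 1 := by
          apply le_antisymm h1
          rw [Nat.succ_le_iff, Module.finrank_pos_iff_exists_ne_zero]
          exact ⟨⟨u, hukr⟩, fun h => hD.u0 (congrArg Subtype.val h)⟩
        obtain ⟨a, ha⟩ := (finrank_eq_one_iff_of_nonzero' (⟨u, hukr⟩ : kr y U)
          (fun h => hD.u0 (congrArg Subtype.val h))).1 h2 ⟨g, hgkr⟩
        exact ⟨a, (congrArg Subtype.val ha).symm⟩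
      have e : ∀ c : C, (θ c g : PR K 6 ⧸ Q) = a • (c : PR K 6 ⧸ Q) := by
        intro c
        have h4 : (c : PR K 6 ⧸ Q) * g = (a • (c : PR K 6 ⧸ Q)) * u := by
          rw [ha, mul_smul_comm, smul_mul_assoc]
        have h5 := huni (θ c g) ⟨a • (c : PR K 6 ⧸ Q), Submodule.smul_mem _ a (hC1 c.2)⟩
          (by rw [← hθ, h4])
        exact congrArg Subtype.val h5
      have hy0 : y = 0 := by
        rw [hy, e, e, mul_smul_comm, mul_smul_comm, mul_comm (c' : PR K 6 ⧸ Q)]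
        simp
      intro v
      rw [hy0, zero_mul]
  -- the map `Λ`
  let ev : C → (C →ₗ[K] U) →ₗ[K] U := fun c => LinearMap.applyₗ c
  let Λ : (C →ₗ[K] U) →ₗ[K] (Fin 3 → gp Q 1) := LinearMap.pi
    ![θ (b 1) ∘ₗ ev (b 2) - θ (b 2) ∘ₗ ev (b 1), θ (b 2) ∘ₗ ev (b 0) - θ (b 0) ∘ₗ ev (b 2),
      θ (b 0) ∘ₗ ev (b 1) - θ (b 1) ∘ₗ ev (b 0)]
  have hΛ0 : ∀ τ, Λ τ 0 = θ (b 1) (τ (b 2)) - θ (b 2) (τ (b 1)) := fun τ => rfl
  have hΛ1 : ∀ τ, Λ τ 1 = θ (b 2) (τ (b 0)) - θ (b 0) (τ (b 2)) := fun τ => rfl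
  have hΛ2 : ∀ τ, Λ τ 2 = θ (b 0) (τ (b 1)) - θ (b 1) (τ (b 0)) := fun τ => rfl
  -- the map `M`
  let M : (Fin 3 → gp Q 1) →ₗ[K] (PR K 6 ⧸ Q) :=
    ∑ i, LinearMap.mulLeft K (b i : PR K 6 ⧸ Q) ∘ₗ (gp Q 1).subtype ∘ₗ LinearMap.proj i
  have hM : ∀ x, M x = ∑ i, (b i : PR K 6 ⧸ Q) * x i := by
    intro x
    simp [M, LinearMap.sum_apply]
  have hrange : gp Q 1 * C ≤ LinearMap.range M := by
    rw [Submodule.mul_le]
    intro l hl c hc
    -- write `c` in the basis
    have h1 : (⟨c, hc⟩ : C) = ∑ i, b.repr ⟨c, hc⟩ i • b i := (b.sum_repr ⟨c, hc⟩).symm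
    have h2 : c = ∑ i, b.repr ⟨c, hc⟩ i • (b i : PR K 6 ⧸ Q) := by
      have h3 := congrArg (fun z : C => (z : PR K 6 ⧸ Q)) h1
      simp only [Submodule.coe_sum, Submodule.coe_smul] at h3
      exact h3
    refine ⟨fun i => b.repr ⟨c, hc⟩ i • ⟨l, hl⟩, ?_⟩
    rw [hM]
    conv_rhs => rw [h2]
    rw [Finset.mul_sum]
    apply Finset.sum_congr rfl
    intro i _
    rw [Submodule.coe_smul, mul_smul_comm, mul_smul_comm, mul_comm]
  have hMle : LinearMap.range M ≤ gp Q 2 := by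
    rintro _ ⟨x, rfl⟩
    rw [hM]
    apply Submodule.sum_mem
    intro i _
    rw [← hmul 1 1]
    exact Submodule.mul_mem_mul (hC1 (b i).2) (x i).2
  have hfinC : Module.finrank K ↥(LinearMap.range M) ≥ 12 := by
    rw [← hC12]
    have : Module.Finite K (LinearMap.range M) := Submodule.finiteDimensional_of_le hMle
    exact Submodule.finrank_mono hrange
  have hg1 : Module.finrank K (gp Q 1) = 6 := by
    have := (hgpd K 6 Q).2 6 hci 1
    simpa using this
  have hrn := CNZ.lin_aux2 M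
  have hdom : Module.finrank K (Fin 3 → gp Q 1) = 18 := by
    rw [Module.finrank_pi_fintype]
    simp [hg1]
  have hkerM : Module.finrank K (LinearMap.ker M) ≤ 6 := by omega
  -- the image of `Λ` under `M` kills `U`
  have hsub : (LinearMap.range Λ).map M ≤ ann Q 2 U := by
    rintro _ ⟨_, ⟨τ, rfl⟩, rfl⟩
    refine ⟨hMle ⟨_, rfl⟩, fun v hv => ?_⟩
    rw [hM, Fin.sum_univ_three, hΛ0, hΛ1, hΛ2]
    have m1 := hminor (b 0) (b 1) (τ (b 2)) ⟨v, hv⟩
    have m2 := hminor (b 2) (b 0) (τ (b 1)) ⟨v, hv⟩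
    have m3 := hminor (b 1) (b 2) (τ (b 0)) ⟨v, hv⟩
    simp only [AddSubgroupClass.coe_sub] at m1 m2 m3 ⊢
    linear_combination m1 + m2 + m3
  have hann2 : Module.finrank K ↥(ann Q 2 U) ≤ 4 := by
    have h1 := hann K 6 6 Q hci 2 2 2 rfl U hc4.le
    have h2 := hr11 K Q U hc4
    have h3 : Nat.choose 6 2 = 15 := by decide
    omega
  have hfa : Module.Finite K ↥(ann Q 2 U) :=
    Submodule.finiteDimensional_of_le (fun y hy => hy.1 : ann Q 2 U ≤ gp Q 2)
  have hmapΛ : Module.finrank K ↥((LinearMap.range Λ).map M) ≤ 4 :=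
    (Submodule.finrank_mono hsub).trans hann2
  have hdomΛ : Module.finrank K (C →ₗ[K] U) = 12 := by
    rw [Module.finrank_linearMap, hC3, hc4.dim]
  have hlin := CNZ.lin_aux (V := ↥C →ₗ[K] ↥U) Λ M
  have hkerΛ : 2 ≤ Module.finrank K (LinearMap.ker Λ) := by omega
  refine hkerΛ.trans (Submodule.finrank_mono ?_)
  intro τ hτ
  rw [LinearMap.mem_ker] at hτ
  have h0 := congrFun hτ 0
  have h1 := congrFun hτ 1
  have h2 := congrFun hτ 2
  rw [hΛ0] at h0
  rw [hΛ1] at h1
  rw [hΛ2] at h2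
  simp only [Pi.zero_apply, sub_eq_zero] at h0 h1 h2
  have hb : ∀ i j : Fin 3, (b i : PR K 6 ⧸ Q) * (τ (b j) : PR K 6 ⧸ Q) =
      (b j : PR K 6 ⧸ Q) * (τ (b i) : PR K 6 ⧸ Q) := by
    intro i j
    rw [hθ, hθ]
    fin_cases i <;> fin_cases j <;>
      first
        | rfl
        | (simp only [Fin.zero_eta, Fin.mk_one, Fin.reduceFinMk]; first | rw [h0] | rw [h1] | rw [h2])
  intro c c'
  rw [← b.sum_repr c, ← b.sum_repr c']
  simp only [map_sum, map_smul, Submodule.coe_sum, Submodule.coe_smul, Finset.sum_mul,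
    Finset.mul_sum, smul_mul_assoc, mul_smul_comm, Finset.smul_sum]
  rw [Finset.sum_comm]
  apply Finset.sum_congr rfl
  intro i _
  apply Finset.sum_congr rfl
  intro j _
  rw [hb, smul_comm]

end Pool.EGH
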