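import Pool.Agent.H14.EGH.E6A
import Pool.Agent.H14.EGH.Sm
import Pool.Agent.H24.EGH.EXC
import Pool.Agent.H24.EGH.HEX
import Pool.Agent.H24.EGH.HSB
import Pool.Agent.H24.EGH.UPI
import Pool.Agent.H29.EGH.GOR
import Pool.Agent.H29.EGH.HGA
import Pool.Agent.H29.EGH.HSR
import Pool.Agent.H29.EGH.MAIN
import Pool.Agent.H29.EGH.PAI
import Pool.Agent.H29.EGH.SHP
import Pool.Agent.H34.EGH.IMG
import Pool.Agent.H34.EGH.JJ4
import Pool.Agent.H34.EGH.R94
import Pool.Agent.H38.EGH.GRO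
import Pool.Agent.H38.EGH.HOP
import Pool.Agent.H38.EGH.HPA
import Pool.Agent.H38.EGH.ZE3
import Pool.Agent.H45.EGH.CNT
import Pool.Agent.H45.EGH.GPM
import Pool.Agent.H45.EGH.LSH
import Pool.Agent.H50.EGH.ANI
import Pool.Agent.H50.EGH.COL
import Pool.Agent.H50.EGH.QE3
import Pool.Agent.H52.EGH.ANN
import Pool.Agent.H52.EGH.BAC
import Pool.Agent.H53.EGH.RE6
import Pool.Agent.H6.EGH.KRO
import Pool.Agent.H6.EGH.LSY
import Pool.Agent.H6.EGH.NR4
import Pool.Agent.H6.EGH.R11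
import Pool.Agent.H6.EGH.RQE
import Pool.Agent.H61.EGH.CLB
import Pool.Agent.H61.EGH.FIN
import Pool.Agent.H74.EGH.PR4
import Pool.Agent.H79.EGH.E3L
import Pool.Agent.H79.EGH.KC6
import Pool.Agent.H85.EGH.GPD
import Pool.Agent.H85.EGH.P66
import Pool.Agent.H85.EGH.PER
import Pool.Agent.H85.EGH.PRM
import Pool.Agent.H85.EGH.RGL
import Pool.Agent.H93.EGH.ANV
import Pool.Agent.H93.EGH.E52
import Pool.Agent.H93.EGH.PNS
import Pool.Agent.H93.EGH.RLF
import Pool.Agent.H94.EGH.LIN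
import Pool.Agent.H94.EGH.MAC
import Pool.Agent.H94.EGH.STR
import Pool.Agent.H94.EGH.T3P
import Pool.Agent.H97.EGH.G62
import Pool.Agent.H97.EGH.KIL
import Pool.Agent.H97.EGH.KIU

/-!
The assembled theorem: every row of the project put together in order of dependence.
-/

set_option autoImplicit false

namespace Pool.EGH

theorem h_bac : BACStmt := t_BAC
theorem h_rgl : RGLStmt := t_RGL
theorem h_gpm : GPMStmt := t_gpm
theorem h_lsh : LSHStmt := t_lsh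
theorem h_lin : LINStmt := t_lin
theorem h_hga : HGAStmt := t_HGA
theorem h_prm : PRMStmt := t_PRM h_hga
theorem h_per : PERStmt := t_PER h_prm h_hga
theorem h_pns : PNSStmt := t_pns h_lsh h_lin h_per h_hga
theorem h_rlf : RLFStmt := t_rlf
theorem h_gor : GORStmt := t_GOR h_pns h_rlf h_per
theorem h_pai : PAIStmt := t_PAI h_gor
theorem h_fin : FINStmt := t_FIN
theorem h_col : COLStmt := t_col h_fin
theorem h_hsb : HSBStmt := t_hsb
theorem h_hsr : HSRStmt := t_HSR h_col h_hsb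
theorem h_chf : CHFStmt := t_CHF h_hsr
theorem h_gpd : GPDStmt := t_GPD h_chf h_hga
theorem h_ann : ANNStmt := t_ANN h_pai h_gpd h_gpm
theorem h_shp : SHPStmt := t_SHP h_fin h_lsh
theorem h_rqf : RQFStmt := t_rqf
theorem h_mon : MONStmt := t_MON
theorem h_exc : EXCStmt := t_exc h_fin h_shp h_lin h_rqf h_pns h_prm h_per h_hsr h_col h_mon h_chf h_hga
theorem h_kil : KILStmt := t_kil h_exc h_per h_hga
theorem h_anv : ANVStmt := t_anv h_kil h_gpd h_hga
theorem h_gr1 : GR1Stmt := t_GR1 h_ann h_anv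
theorem h_img : IMGStmt := t_img h_gpd
theorem h_he1 : HE1Stmt := t_he1 h_gpm h_gr1 h_img
theorem h_grd : GRDStmt := t_GRD h_ann h_anv h_gpm
theorem h_hed : HEDStmt := t_hed h_gpm h_grd h_img
theorem h_grt : GRTStmt := t_GRT h_pai h_gpd h_gpm
theorem h_het : HETStmt := t_het h_gpm h_grt h_img
theorem h_quo : QUOStmt := t_quo h_exc h_per
theorem h_clb : CLBStmt := t_CLB h_col h_mon h_quo h_hga
theorem h_re5 : RE5Stmt := t_RE5 h_clb h_he1 h_hed h_img
theorem h_hpa : HPAStmt := t_hpa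
theorem h_hop : HOPStmt := t_hop h_hpa
theorem h_rqe : RQEStmt := t_rqe h_hop h_gpm h_gpd
theorem h_e52 : E52Stmt := t_e52 h_re5 h_rqe h_anv h_img h_gpd
theorem h_upi : UPIStmt := t_upi h_gpm h_hga h_img
theorem h_re6 : RE6Stmt := t_re6 h_clb h_he1 h_e52
theorem h_e6a : E6AStmt := t_E6A h_re6 h_rqe
theorem h_p6a : P6AStmt := t_P6A h_upi h_e6a
theorem h_kiu : KIUStmt := t_kiu h_kil
theorem h_v33 : V33Stmt := t_v33 h_p6a h_ann
theorem h_rnk : RNKStmt := t_RNK h_gpm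
theorem h_kc6 : KC6Stmt := t_kc6 h_kiu h_gr1 h_v33 h_rnk h_gpm
theorem h_t3p : T3PStmt := t_t3p h_hop h_pai h_ann h_gpm h_gpd
theorem h_kf3 : KF3Stmt := t_kf3 h_t3p h_rnk h_grd h_gpm h_gpd
theorem h_rk4 : RK4Stmt := t_rk4 h_t3p h_kf3 h_rnk h_grd h_gpm
theorem h_str : STRStmt := t_str h_rk4 h_ann h_anv h_rnk h_gpm h_gpd
theorem h_ani : ANIStmt := t_ani h_fin h_hga h_ann h_gpd
theorem h_r94 : R94Stmt := t_r94 h_clb h_hed h_e6a
theorem h_nr4 : NR4Stmt := t_nr4 h_gpm h_ani h_r94 h_rk4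
theorem h_r11 : R11Stmt := t_r11 h_gpm h_ani h_rqe h_nr4
theorem h_cnt : CNTStmt := t_cnt h_gpm h_ann h_rnk h_str h_rk4 h_r11 h_gpd
theorem h_kro : KROStmt := t_kro
theorem h_pr4 : PR4Stmt := t_pr4 h_cnt h_kro h_str h_hop
theorem h_qe3 : QE3Stmt := t_qe3 h_quo h_gpm h_upi h_mon h_chf h_hga
theorem h_dan : DANStmt := t_DAN h_ann h_gpm
theorem h_anm : ANMStmt := t_ANM h_pai h_gpm
theorem h_ze3 : ZE3Stmt := t_ze3 h_qe3 h_ann h_dan h_anm h_gor h_gpm h_gpd h_chf h_img h_hga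
theorem h_lsy : LSYStmt := t_lsy h_hga
theorem h_e3l : E3LStmt := t_e3l h_qe3 h_lsy h_lin
theorem h_jj4 : JJ4Stmt := t_jj4 h_gpm h_gpd h_t3p h_str h_rk4 h_pr4 h_ze3 h_e3l
theorem h_p66 : P66Stmt := t_P66 h_p6a h_kc6 h_kf3 h_jj4
theorem h_g62 : G62Stmt := t_g62 h_p66 h_img h_gpm
theorem h_g63 : G63Stmt := t_g63 h_p66 h_img h_ann h_gpm
theorem h_gro : GROStmt := t_gro h_he1 h_hed h_het h_e52 h_g62 h_g63 h_img
theorem h_mac : MACStmt := t_mac
theorem h_main : MainStmt := t_MAIN h_bac h_rgl h_gro h_mac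

/-- The theorem: the conjecture for quadrics in at most six variables. -/
theorem egh_all : MainStmt := h_main

end Pool.EGH
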