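import Mathlib

/-!
# EGH: ideals containing a regular sequence of quadrics, definitions
-/

set_option autoImplicit false

namespace Pool.EGH

open MvPolynomial

/-- The polynomial ring in `N` variables. -/
abbrev PR (K : Type) [Field K] (N : ℕ) : Type := MvPolynomial (Fin N) K

/-- The forms of degree `i`. -/
abbrev fm (K : Type) [Field K] (N i : ℕ) : Submodule K (PR K N) :=
  homogeneousSubmodule (Fin N) K i

variable {K : Type} [Field K] {N : ℕ}

/-- The ideal `I` is homogeneous. -/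
def Hg (I : Ideal (PR K N)) : Prop := ∀ f ∈ I, ∀ d : ℕ, homogeneousComponent d f ∈ I

/-- The Hilbert function of the quotient by `I`. -/
noncomputable def hf (I : Ideal (PR K N)) (i : ℕ) : ℕ :=
  Module.finrank K (fm K N i) - Module.finrank K ↥(I.restrictScalars K ⊓ fm K N i)

/-- `f` is a nonzerodivisor modulo `J`. -/
def Rg (J : Ideal (PR K N)) (f : PR K N) : Prop := ∀ z : PR K N, f * z ∈ J → z ∈ J

/-- `J` is generated by a regular sequence of `k` linear forms followed by `r` quadrics. -/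
inductive MCI : ℕ → ℕ → Ideal (PR K N) → Prop
  | zero : MCI 0 0 ⊥
  | lin {k : ℕ} {J : Ideal (PR K N)} {l : PR K N} : MCI k 0 J → l ∈ fm K N 1 → Rg J l →
      MCI (k + 1) 0 (J ⊔ Ideal.span {l})
  | quad {k r : ℕ} {J : Ideal (PR K N)} {q : PR K N} : MCI k r J → q ∈ fm K N 2 → Rg J q →
      MCI k (r + 1) (J ⊔ Ideal.span {q})

/-- `Q` is a complete intersection of `n` quadrics in an `n`-dimensional linear subspace. -/
def CI (n : ℕ) (Q : Ideal (PR K N)) : Prop := ∃ k : ℕ, k + n = N ∧ MCI k n Q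

/-- The forms of degree `i` in the quotient by `Q`. -/
noncomputable def gp (Q : Ideal (PR K N)) (i : ℕ) : Submodule K (PR K N ⧸ Q) :=
  (fm K N i).map (Ideal.Quotient.mkₐ K Q).toLinearMap

/-- The elements of degree `j` of the quotient which kill `V`. -/
noncomputable def ann (Q : Ideal (PR K N)) (j : ℕ) (V : Submodule K (PR K N ⧸ Q)) :
    Submodule K (PR K N ⧸ Q) where
  carrier := {y | y ∈ gp Q j ∧ ∀ v ∈ V, y * v = 0}
  add_mem' := fun ha hb => ⟨add_mem ha.1 hb.1, fun v hv => by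
    rw [add_mul, ha.2 v hv, hb.2 v hv, add_zero]⟩
  zero_mem' := ⟨zero_mem _, fun v _ => zero_mul v⟩
  smul_mem' := fun c _ hy => ⟨Submodule.smul_mem _ c hy.1, fun v hv => by
    rw [smul_mul_assoc, hy.2 v hv, smul_zero]⟩

/-- The elements of `V` killed by `w`. -/
noncomputable def kr {Q : Ideal (PR K N)} (w : PR K N ⧸ Q) (V : Submodule K (PR K N ⧸ Q)) :
    Submodule K (PR K N ⧸ Q) := V ⊓ LinearMap.ker (LinearMap.mulLeft K w)

/-- The space `w V`. -/
noncomputable def ml {Q : Ideal (PR K N)} (w : PR K N ⧸ Q) (V : Submodule K (PR K N ⧸ Q)) :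
    Submodule K (PR K N ⧸ Q) := V.map (LinearMap.mulLeft K w)

/-- The dimension of `A_1 V`. -/
noncomputable def dg (Q : Ideal (PR K N)) (V : Submodule K (PR K N ⧸ Q)) : ℕ :=
  Module.finrank K ↥(gp Q 1 * V)

/-- The ideal of the polynomial ring generated by `Q` and `V`. -/
noncomputable def upI (Q : Ideal (PR K N)) (V : Submodule K (PR K N ⧸ Q)) : Ideal (PR K N) :=
  (Ideal.span (V : Set (PR K N ⧸ Q))).comap (Ideal.Quotient.mk Q)

/-- The forms of degree `i` of `I` modulo `Q`. -/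
noncomputable def im (Q I : Ideal (PR K N)) (i : ℕ) : Submodule K (PR K N ⧸ Q) :=
  (I.restrictScalars K ⊓ fm K N i).map (Ideal.Quotient.mkₐ K Q).toLinearMap

/-- The ideal of the polynomials which kill `V`. -/
noncomputable def anI (Q : Ideal (PR K N)) (V : Submodule K (PR K N ⧸ Q)) : Ideal (PR K N) where
  carrier := {f | ∀ v ∈ V, Ideal.Quotient.mk Q f * v = 0}
  add_mem' := fun ha hb v hv => by rw [map_add, add_mul, ha v hv, hb v hv, add_zero]
  zero_mem' := fun v _ => by rw [map_zero, zero_mul]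
  smul_mem' := fun c f hf v hv => by
    rw [smul_eq_mul, map_mul, mul_assoc, hf v hv, mul_zero]

/-- The ideal `I : l`. -/
def clI (I : Ideal (PR K N)) (l : PR K N) : Ideal (PR K N) where
  carrier := {f | l * f ∈ I}
  add_mem' := fun ha hb => by
    change _ * (_ + _) ∈ I
    rw [mul_add]; exact add_mem ha hb
  zero_mem' := by
    change _ * 0 ∈ I
    rw [mul_zero]; exact zero_mem I
  smul_mem' := fun c f hf => by
    change _ * (c • f) ∈ I
    rw [smul_eq_mul, mul_left_comm]; exact I.mul_mem_left c hf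

/-- No linear form kills a nonzero element of `V`. -/
def KF (Q : Ideal (PR K N)) (V : Submodule K (PR K N ⧸ Q)) : Prop :=
  ∀ l ∈ gp Q 1, ∀ v ∈ V, l * v = 0 → l = 0 ∨ v = 0

/-- The growth bound from degree 2 to degree 3. -/
def b2 (h : ℕ) : ℕ := [0, 0, 0, 1, 1, 2, 4, 4, 5, 7, 10, 10, 11, 13, 16, 20].getD h 0

/-- The growth bound from degree 3 to degree 4. -/
def b3 (h : ℕ) : ℕ :=
  [0, 0, 0, 0, 1, 1, 1, 2, 2, 3, 5, 5, 5, 6, 6, 7, 9, 9, 10, 12, 15].getD h 0

/-- The growth bound from degree 4 to degree 5. -/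
def b4 (h : ℕ) : ℕ := [0, 0, 0, 0, 0, 1, 1, 1, 1, 2, 2, 2, 3, 3, 4, 6].getD h 0

end Pool.EGH
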