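import Pool.Agent.H45.EGH.All
import Pool.Agent.H85.EGC.TR1
import Pool.Agent.H34.EGC.TR2
import Pool.Agent.H85.EGC.TR3

/-!
# EGH: any number of variables, the Hilbert function in degree two at most twelve
-/

set_option autoImplicit false

namespace Pool.EGH

open MvPolynomial

/-- At most six quadrics in any number of variables. -/
theorem gn6 (K : Type) [Field K] [IsAlgClosed K] (N n : ℕ) (Q I : Ideal (PR K N)) (hn : n ≤ 6)
    (hQ : CI n Q) (hI : Hg I) (hQI : Q ≤ I) (i : ℕ) (hi : 1 ≤ i) :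
    hf I i ≤ n.choose i ∧ hf I (i + 1) ≤ bd i (hf I i) := by
  obtain ⟨k, hk, hM⟩ := hQ
  obtain ⟨J0, hJ0, hJ0J, hmap⟩ := Pool.EGC.t_tr2 K N k n n Q hM
  obtain ⟨π, hπ, hker⟩ := (Pool.EGC.t_tr1 h_lsh) K N k n J0 hJ0 hk
  have hQ' : MCI 0 n (Q.map π) := hmap π hπ hker
  obtain ⟨hHg', hhf⟩ := Pool.EGC.t_tr3 K N n π I hπ (by rw [hker]; exact hJ0J.trans hQI) hI
  have := h_gro K n (Q.map π) (I.map π) hn ⟨0, zero_add n, hQ'⟩ hHg' (Ideal.map_mono hQI) i hi
  rwa [hhf, hhf] at this

/-- The largest values which occur. -/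
def cap (i : ℕ) : ℕ :=
  match i with
  | 2 => 12
  | 3 => 11
  | 4 => 5
  | 5 => 1
  | _ => 0

theorem e7_num2 : ∀ h < 13, ∀ a < 13, ∀ b < 13, a ≤ h → b ≤ h →
    min (b2 (h - a) + min (a.choose 2) (h - b)) (b2 (h - b) + min (b.choose 2) (h - a)) ≤
      b2 h := by
  decide

theorem e7_num3 : ∀ h < 12, ∀ a < 12, ∀ b < 12, a ≤ h → b ≤ h →
    min (b3 (h - a) + min (b2 a) (h - b)) (b3 (h - b) + min (b2 b) (h - a)) ≤ b3 h := by
  decide

theorem e7_num4 : ∀ h < 6, ∀ a < 6, ∀ b < 6, a ≤ h → b ≤ h →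
    min (b4 (h - a) + min (b3 a) (h - b)) (b4 (h - b) + min (b3 b) (h - a)) ≤ b4 h := by
  decide

theorem bd_big (i h : ℕ) (hi : 6 ≤ i) : bd i h = 0 := by
  unfold bd
  split <;> omega

/-- The finite checks. -/
theorem e7_num (i h a b : ℕ) (hi : 2 ≤ i) (hh : h ≤ cap i) (ha : a ≤ h) (hb : b ≤ h) :
    min (bd i (h - a) + min (bd (i - 1) a) (h - b))
      (bd i (h - b) + min (bd (i - 1) b) (h - a)) ≤ bd i h ∧ bd i h ≤ cap (i + 1) := by
  rcases Nat.lt_or_ge i 6 with h6 | h6
  · obtain ⟨j, rfl⟩ : ∃ j, i = j + 2 := ⟨i - 2, by omega⟩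
    have hj : j < 4 := by omega
    interval_cases j
    · have hh' : h ≤ 12 := hh
      refine ⟨e7_num2 h (by omega) a (by omega) b (by omega) ha hb, ?_⟩
      have h1 : ∀ x < 13, b2 x ≤ 11 := by decide
      exact h1 h (by omega)
    · have hh' : h ≤ 11 := hh
      refine ⟨e7_num3 h (by omega) a (by omega) b (by omega) ha hb, ?_⟩
      have h1 : ∀ x < 12, b3 x ≤ 5 := by decide
      exact h1 h (by omega)
    · have hh' : h ≤ 5 := hh
      refine ⟨e7_num4 h (by omega) a (by omega) b (by omega) ha hb, ?_⟩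
      have h1 : ∀ x < 6, b4 x ≤ 1 := by decide
      exact h1 h (by omega)
    · have hh' : h ≤ 1 := hh
      have e5 : ∀ x, x ≤ 1 → bd 5 x = 0 := fun x hx => if_neg (by omega)
      have e4 : ∀ x < 2, b4 x = 0 := by decide
      have e4a : bd (5 - 1) a = 0 := e4 a (by omega)
      have h5a : bd 5 (h - a) = 0 := e5 _ (by omega)
      refine ⟨(min_le_left _ _).trans ?_, (e5 h hh').le⟩
      change bd 5 (h - a) + min (bd (5 - 1) a) (h - b) ≤ _
      rw [h5a, e4a]
      simp
  · have hc : cap i = 0 := by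
      unfold cap
      split <;> omega
    rw [hc] at hh
    have h0 : h = 0 := by omega
    have ha0 : a = 0 := by omega
    have hb0 : b = 0 := by omega
    subst h0
    subst ha0
    subst hb0
    rw [bd_big i _ h6]
    simp

/-- The bound in all degrees. -/
theorem e7 (K : Type) [Field K] [IsAlgClosed K] (n : ℕ) : ∀ (N : ℕ) (Q I : Ideal (PR K N)),
    CI n Q → Hg I → Q ≤ I → hf I 2 ≤ 12 → ∀ i, 1 ≤ i → hf I (i + 1) ≤ bd i (hf I i) := by
  have : Infinite K := IsAlgClosed.instInfinite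
  induction n with
  | zero =>
    intro N Q I hQ hI hQI _ i hi
    exact (gn6 K N 0 Q I (by omega) hQ hI hQI i hi).2
  | succ n ih =>
    intro N Q I hQ hI hQI h12 i hi
    rcases Nat.lt_or_ge n 6 with hn | hn
    · exact (gn6 K N (n + 1) Q I (by omega) hQ hI hQI i hi).2
    obtain ⟨l, m, hl, hm, hlQ, hmQ, hlm⟩ := h_rqe K N (n + 1) Q I hQ hI hQI (by omega) (by omega)
    have hml : m * l ∈ I := by rw [mul_comm]; exact hlm
    obtain ⟨a1, a2, a3, a4, a5, Q1, a6, a7⟩ := h_clb K N n Q I l m hQ hI hQI hl hm hlQ hlm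
    obtain ⟨c1, c2, c3, c4, c5, Q2, c6, c7⟩ := h_clb K N n Q I m l hQ hI hQI hm hl hmQ hml
    -- the four smaller ideals
    have hIl : I ≤ clI I l := fun f hf => I.mul_mem_left l hf
    have hIm : I ≤ clI I m := fun f hf => I.mul_mem_left m hf
    have hsl : I ⊔ Ideal.span {m} ≤ clI I l :=
      sup_le hIl ((Ideal.span_singleton_le_iff_mem _).2 hlm)
    have hsm : I ⊔ Ideal.span {l} ≤ clI I m :=
      sup_le hIm ((Ideal.span_singleton_le_iff_mem _).2 hml)
    have b1 : hf (I ⊔ Ideal.span {l}) 2 ≤ 12 := (h_mon K N I _ 2 le_sup_left).1.trans h12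
    have b2' : hf (I ⊔ Ideal.span {m}) 2 ≤ 12 := (h_mon K N I _ 2 le_sup_left).1.trans h12
    have b3' : hf (clI I l) 2 ≤ 12 := (h_mon K N I _ 2 hIl).1.trans h12
    have b4' : hf (clI I m) 2 ≤ 12 := (h_mon K N I _ 2 hIm).1.trans h12
    have g1 := ih N Q1 _ a6 a5 a7 b1
    have g2 := ih N Q2 _ c6 c5 c7 b2'
    have g3 := ih N Q2 _ c6 a3 (c7.trans hsl) b3'
    have g4 := ih N Q1 _ a6 c3 (a7.trans hsm) b4'
    -- one step
    have step : ∀ j, 2 ≤ j → hf I j ≤ cap j →
        hf I (j + 1) ≤ bd j (hf I j) ∧ hf I (j + 1) ≤ cap (j + 1) := by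
      intro j hj hc
      obtain ⟨t, rfl⟩ : ∃ t, j = t + 2 := ⟨j - 2, by omega⟩
      have e1 := a1 (t + 1)
      have e2 := a1 (t + 2)
      have f1 := c1 (t + 1)
      have f2 := c1 (t + 2)
      have m1 := a2 (t + 2)
      have m2 := c2 (t + 2)
      have k1 := g3 (t + 1) (by omega)
      have k2 := g4 (t + 1) (by omega)
      have k3 := g1 (t + 2) (by omega)
      have k4 := g2 (t + 2) (by omega)
      have d1 : hf (I ⊔ Ideal.span {l}) (t + 2) = hf I (t + 2) - hf (clI I l) (t + 1) := by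
        have : t + 1 + 1 = t + 2 := rfl
        rw [this] at e1
        omega
      have d2 : hf (I ⊔ Ideal.span {m}) (t + 2) = hf I (t + 2) - hf (clI I m) (t + 1) := by
        have : t + 1 + 1 = t + 2 := rfl
        rw [this] at f1
        omega
      rw [d1] at k3 m2
      rw [d2] at k4 m1
      have hnum := e7_num (t + 2) (hf I (t + 2)) (hf (clI I l) (t + 1)) (hf (clI I m) (t + 1))
        (by omega) hc (by
          have : t + 1 + 1 = t + 2 := rfl
          rw [this] at e1
          omega) (by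
          have : t + 1 + 1 = t + 2 := rfl
          rw [this] at f1
          omega)
      have h1 : hf I (t + 2 + 1) ≤ bd (t + 2) (hf I (t + 2) - hf (clI I l) (t + 1)) +
          min (bd (t + 2 - 1) (hf (clI I l) (t + 1))) (hf I (t + 2) - hf (clI I m) (t + 1)) := by
        rw [← e2]
        exact Nat.add_le_add k3 (le_min k1 m1)
      have h2 : hf I (t + 2 + 1) ≤ bd (t + 2) (hf I (t + 2) - hf (clI I m) (t + 1)) +
          min (bd (t + 2 - 1) (hf (clI I m) (t + 1))) (hf I (t + 2) - hf (clI I l) (t + 1)) := by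
        rw [← f2]
        exact Nat.add_le_add k4 (le_min k2 m2)
      have h3 := (le_min h1 h2).trans hnum.1
      exact ⟨h3, h3.trans hnum.2⟩
    have hcap : ∀ j, hf I (j + 2) ≤ cap (j + 2) := by
      intro j
      induction j with
      | zero => exact h12
      | succ j ihj => exact (step (j + 2) (by omega) ihj).2
    rcases Nat.eq_or_lt_of_le hi with h | h
    · subst h
      exact h_he1 K N (n + 1) Q I hQ hI hQI
    · obtain ⟨t, rfl⟩ : ∃ t, i = t + 2 := ⟨i - 2, by omega⟩
      exact (step (t + 2) (by omega) (hcap t)).1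

/-- The values in degrees at least two. -/
theorem e7_cap (K : Type) [Field K] [IsAlgClosed K] (n N : ℕ) (Q I : Ideal (PR K N))
    (hQ : CI n Q) (hI : Hg I) (hQI : Q ≤ I) (h12 : hf I 2 ≤ 12) :
    ∀ j, hf I (j + 2) ≤ cap (j + 2) := by
  intro j
  induction j with
  | zero => exact h12
  | succ j ih =>
    exact (e7 K n N Q I hQ hI hQI h12 (j + 2) (by omega)).trans
      (e7_num (j + 2) (hf I (j + 2)) 0 0 (by omega) ih (Nat.zero_le _) (Nat.zero_le _)).2

theorem cap_le (j : ℕ) : cap (j + 2) ≤ Nat.choose 6 (j + 2) := by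
  rcases Nat.lt_or_ge j 4 with h | h
  · interval_cases j <;> decide
  · have : cap (j + 2) = 0 := by
      unfold cap
      split <;> omega
    rw [this]
    exact Nat.zero_le _

/-- **Theorem.** The bound of Eisenbud, Green and Harris for ideals which contain a regular
sequence of `n` quadrics in `n` variables, if `n ≤ 6` or if the Hilbert function of the quotient
is at most twelve in degree two. -/
theorem egh_e7 (K : Type) [Field K] (n : ℕ) (I : Ideal (MvPolynomial (Fin n) K))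
    (hn : n ≤ 6 ∨ Module.finrank K (MvPolynomial.homogeneousSubmodule (Fin n) K 2) -
        Module.finrank K ↥(I.restrictScalars K ⊓ MvPolynomial.homogeneousSubmodule (Fin n) K 2)
          ≤ 12)
    (hI : ∀ f ∈ I, ∀ d : ℕ, MvPolynomial.homogeneousComponent d f ∈ I)
    (hreg : ∃ rs : List (MvPolynomial (Fin n) K), rs.length = n ∧
        (∀ f ∈ rs, f.IsHomogeneous 2 ∧ f ∈ I) ∧
        RingTheory.Sequence.IsRegular (MvPolynomial (Fin n) K) rs)
    (i : ℕ) (hi : 1 ≤ i) (m : ℕ → ℕ) (hm : ∀ k : ℕ, 1 ≤ k → k < i → m k < m (k + 1))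
    (hsum : Module.finrank K (MvPolynomial.homogeneousSubmodule (Fin n) K i) -
            Module.finrank K
              ↥(I.restrictScalars K ⊓ MvPolynomial.homogeneousSubmodule (Fin n) K i)
          = ∑ k ∈ Finset.Icc 1 i, (m k).choose k) :
    Module.finrank K (MvPolynomial.homogeneousSubmodule (Fin n) K (i + 1)) -
        Module.finrank K
          ↥(I.restrictScalars K ⊓ MvPolynomial.homogeneousSubmodule (Fin n) K (i + 1))
      ≤ ∑ k ∈ Finset.Icc 1 i, (m k).choose (k + 1) := by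
  rcases hn with h6 | h12
  · exact egh_all K n I h6 hI hreg i hi m hm hsum
  obtain ⟨rs, hlen, hrs, hrg⟩ := hreg
  obtain ⟨I', rs', hI', hlen', hrs', hreg', hhf⟩ :=
    h_bac K n I rs hI hrs hrg.toIsWeaklyRegular
  have hQ := h_rgl (AlgebraicClosure K) n rs' (fun f hf => (hrs' f hf).1) hreg'
  have hCI : CI n (Ideal.ofList rs') := by
    refine ⟨0, zero_add n, ?_⟩
    rw [hlen', hlen] at hQ
    exact hQ
  have hle : Ideal.ofList rs' ≤ I' := Ideal.span_le.2 fun f hf => (hrs' f hf).2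
  have h12' : hf I' 2 ≤ 12 := by
    rw [hhf]
    exact h12
  have hb := e7 (AlgebraicClosure K) n n _ I' hCI hI' hle h12' i hi
  rw [hhf, hhf] at hb
  rcases Nat.eq_or_lt_of_le hi with h | h
  · subst h
    have hs : hf I 1 = m 1 := by
      have : hf I 1 = ∑ k ∈ Finset.Icc 1 1, (m k).choose k := hsum
      rw [this]
      simp
    have hb' : hf I (1 + 1) ≤ (hf I 1).choose 2 := hb
    rw [hs] at hb'
    refine le_trans (b := (m 1).choose 2) hb' ?_
    simp
  · obtain ⟨t, rfl⟩ : ∃ t, i = t + 2 := ⟨i - 2, by omega⟩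
    have hc := e7_cap (AlgebraicClosure K) n n _ I' hCI hI' hle h12' t
    rw [hhf] at hc
    exact hb.trans (h_mac (t + 2) (hf I (t + 2)) m (by omega) (hc.trans (cap_le t)) hm hsum)

end Pool.EGH
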