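import Pool.Agent.H45.EGH.E8S

/-!
# EGH: the growth of segments and Macaulay representations
-/

set_option autoImplicit false

namespace Pool.EGH.E8

open MvPolynomial Pool.EGH Pool.EGC

theorem up_full {m : ℕ} (c : Fin m → Bool) (d : ℕ) : up c d (Mo c d) = Mo c (d + 1) := by
  apply Finset.Subset.antisymm (up_sub c d _)
  intro y hy
  rw [(f_mom m c d y).2]
  refine ⟨hy, ?_⟩
  obtain ⟨h1, h2⟩ := ((f_mom m c (d + 1) y).1).1 hy
  have h3 : ∃ i, y i ≠ 0 := by
    by_contra hcon
    rw [not_exists] at hcon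
    have : ∑ i, y i = 0 := Finset.sum_eq_zero fun i _ => not_not.1 (hcon i)
    omega
  obtain ⟨i, hi⟩ := h3
  have he : y = (fun j => y j - (Pi.single i 1 : Fin m → ℕ) j) + Pi.single i 1 := by
    funext j
    rw [Pi.add_apply]
    by_cases hj : j = i
    · subst hj
      rw [Pi.single_eq_same]
      omega
    · rw [Pi.single_eq_of_ne hj]
      rfl
  refine ⟨fun j => y j - (Pi.single i 1 : Fin m → ℕ) j, ?_, i, he⟩
  rw [(f_mom m c d _).1]
  constructor
  · have h4 : ∑ j, y j = ∑ j, ((y j - (Pi.single i 1 : Fin m → ℕ) j) +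
        (Pi.single i 1 : Fin m → ℕ) j) :=
      Finset.sum_congr rfl fun j _ => congrFun he j
    have h5 : ∑ j, (Pi.single i 1 : Fin m → ℕ) j = 1 := by simp
    rw [Finset.sum_add_distrib, h5] at h4
    omega
  · intro j hj
    have := h2 j hj
    omega

theorem sum_zero (m : ℕ → ℕ) (i : ℕ) : (∀ k, 1 ≤ k → k < i → m k < m (k + 1)) → m i < i →
    ∑ k ∈ Finset.Icc 1 i, (m k).choose k = 0 := by
  induction i with
  | zero => intro _ h; omega
  | succ i ih =>
    intro hm h
    rw [Finset.sum_Icc_succ_top (by omega), Nat.choose_eq_zero_of_lt h, Nat.add_zero]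
    rcases Nat.eq_zero_or_pos i with h0 | h0
    · subst h0
      rfl
    · have := hm i h0 (by omega)
      exact ih (fun k h1 h2 => hm k h1 (by omega)) (by omega)

theorem sum_lt (m : ℕ → ℕ) (i : ℕ) : (∀ k, 1 ≤ k → k < i + 1 → m k < m (k + 1)) →
    i + 1 ≤ m (i + 1) + 1 →
    ∑ k ∈ Finset.Icc 1 (i + 1), (m k).choose k + 1 ≤ (m (i + 1) + 1).choose (i + 1) := by
  induction i with
  | zero =>
    intro _ _
    simp
  | succ i ih =>
    intro hm h
    rw [Finset.sum_Icc_succ_top (by omega), Nat.choose_succ_succ' (m (i + 1 + 1)) (i + 1)]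
    have h1 := hm (i + 1) (by omega) (by omega)
    have h2 : ∑ k ∈ Finset.Icc 1 (i + 1), (m k).choose k + 1 ≤
        (m (i + 1 + 1)).choose (i + 1) := by
      rcases Nat.lt_or_ge (m (i + 1) + 1) (i + 1) with h3 | h3
      · rw [sum_zero m (i + 1) (fun k h1 h2 => hm k h1 (by omega)) (by omega)]
        exact Nat.choose_pos (by omega)
      · exact (ih (fun k h1 h2 => hm k h1 (by omega)) h3).trans
          (Nat.choose_le_choose _ (by omega))
    omega

/-- Segments and Macaulay representations. -/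
theorem mag (n : ℕ) : ∀ (i : ℕ) (B : Finset (Fin n → ℕ)) (m : ℕ → ℕ), Sg (cp n n) i B →
    (∀ k, 1 ≤ k → k < i → m k < m (k + 1)) →
    B.card + ∑ k ∈ Finset.Icc 1 i, (m k).choose k = (Mo (cp n n) i).card →
    (Mo (cp n n) (i + 1)).card ≤
      (up (cp n n) i B).card + ∑ k ∈ Finset.Icc 1 i, (m k).choose (k + 1) := by
  induction n with
  | zero =>
    intro i B m _ _ _
    rw [f_moc, Nat.choose_eq_zero_of_lt (Nat.succ_pos i)]
    exact Nat.zero_le _
  | succ n ih =>
    intro i B m hB hm hc
    rcases Nat.eq_zero_or_pos i with h0 | h0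
    · subst h0
      have hB' : B = Mo (cp (n + 1) (n + 1)) 0 := by
        apply Finset.eq_of_subset_of_card_le hB.1
        rw [← hc]
        simp
      rw [hB', up_full]
      exact Nat.le_add_right _ _
    obtain ⟨j, rfl⟩ : ∃ j, i = j + 1 := ⟨i - 1, by omega⟩
    have hMj : (Mo (cp (n + 1) (n + 1)) (j + 1)).card = n.choose (j + 1) + n.choose j := by
      rw [f_moc, Nat.choose_succ_succ' n j, Nat.add_comm]
    have hMj2 : (Mo (cp (n + 1) (n + 1)) (j + 1 + 1)).card =
        n.choose (j + 2) + n.choose (j + 1) := by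
      rw [f_moc, Nat.choose_succ_succ' n (j + 1), Nat.add_comm]
    obtain ⟨hBM, hBS⟩ := hB
    obtain ⟨t1, t2, -, -, -⟩ := f_sl1 n (cp (n + 1) (n + 1)) (j + 1) 0 B hBM
    obtain ⟨-, q2, q3⟩ := f_sl2 n (cp (n + 1) (n + 1)) 0
    rw [cp_succ] at t2 q3
    have hs0 : sl 0 0 B ⊆ Mo (cp n n) (j + 1) := t2 0 (by omega)
    have hs1 : sl 0 1 B ⊆ Mo (cp n n) j := t2 1 (by omega)
    have hsg0 : Sg (cp n n) (j + 1) (sl 0 0 B) := by
      refine ⟨hs0, fun x hx y hy hxy => ?_⟩
      rw [t1] at hx ⊢
      exact hBS _ hx _ ((q3 (j + 1) 0 y).2 ⟨by omega, fun _ => by omega, hy⟩) ((q2 0 x y).2 hxy)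
    have hsg1 : Sg (cp n n) j (sl 0 1 B) := by
      refine ⟨hs1, fun x hx y hy hxy => ?_⟩
      rw [t1] at hx ⊢
      exact hBS _ hx _ ((q3 (j + 1) 1 y).2 ⟨by omega, fun _ => by omega, hy⟩) ((q2 1 x y).2 hxy)
    have cB := card_sl n j 0 B hBM
    have cU := card_sl n (j + 1) 0 (up (cp (n + 1) (n + 1)) (j + 1) B) (up_sub _ _ _)
    rw [sl0_up n (j + 1) 0 B hBM] at cU
    have hU1 : sl 0 1 (up (cp (n + 1) (n + 1)) (j + 1) B) =
        up (cp n n) j (sl 0 1 B) ∪ sl 0 0 B := by
      ext x
      rw [sl1_up n j 0 B hBM, Finset.mem_union]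
    rw [hU1] at cU
    rw [hMj] at hc
    rw [hMj2]
    rcases Finset.eq_empty_or_nonempty (sl 0 0 B) with hE | hE
    · -- all of `B` begins with one
      rw [hE, up_empty, Finset.card_empty, Finset.union_empty, Nat.zero_add] at cU
      rw [hE, Finset.card_empty, Nat.zero_add] at cB
      rw [Finset.sum_Icc_succ_top (by omega)] at hc ⊢
      have hle1 : (sl 0 1 B).card ≤ n.choose j := by
        rw [← f_moc n j]
        exact Finset.card_le_card hs1
      rcases Nat.lt_trichotomy (m (j + 1)) n with hM | hM | hM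
      · rcases Nat.lt_or_ge (m (j + 1)) j with hj | hj
        · have hz := sum_zero m (j + 1) hm (by omega)
          rw [Finset.sum_Icc_succ_top (by omega)] at hz
          have hz2 : n.choose (j + 1) = 0 := by omega
          rw [Nat.choose_eq_zero_iff] at hz2
          rw [Nat.choose_eq_zero_of_lt hz2, Nat.choose_eq_zero_of_lt (by omega : n < j + 2)]
          exact Nat.zero_le _
        · have hs := sum_lt m j hm (by omega)
          rw [Finset.sum_Icc_succ_top (by omega)] at hs
          have hmono : (m (j + 1) + 1).choose (j + 1) ≤ n.choose (j + 1) :=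
            Nat.choose_le_choose _ (by omega)
          omega
      · rw [hM] at hc ⊢
        have h1 := ih j (sl 0 1 B) m hsg1 (fun k h1 h2 => hm k h1 (by omega)) (by
          rw [f_moc]
          omega)
        rw [f_moc] at h1
        rw [cU]
        have h3 : n.choose (j + 1 + 1) = n.choose (j + 2) := rfl
        omega
      · have h1 : (n + 1).choose (j + 1 + 1) ≤ (m (j + 1)).choose (j + 1 + 1) :=
          Nat.choose_le_choose _ (by omega)
        rw [Nat.choose_succ_succ' n (j + 1)] at h1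
        have h3 : n.choose (j + 1 + 1) = n.choose (j + 2) := rfl
        omega
    · -- all vectors beginning with one are in `B`
      obtain ⟨x0, hx0⟩ := hE
      have hall : sl 0 1 B = Mo (cp n n) j := by
        apply Finset.Subset.antisymm hs1
        intro y hy
        rw [t1] at hx0 ⊢
        refine hBS _ hx0 _ ((q3 (j + 1) 1 y).2 ⟨by omega, fun _ => by omega, hy⟩) ?_
        refine ⟨0, fun k hk => absurd hk (Fin.not_lt_zero k), ?_⟩
        simp
      have hcB : (sl 0 1 B).card = n.choose j := by rw [hall, f_moc]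
      have h1 := ih (j + 1) (sl 0 0 B) m hsg0 hm (by
        rw [f_moc]
        omega)
      rw [f_moc] at h1
      have h2 : n.choose (j + 1) ≤ (up (cp n n) j (sl 0 1 B) ∪ sl 0 0 B).card := by
        rw [← f_moc n (j + 1), ← up_full, hall]
        exact Finset.card_le_card Finset.subset_union_left
      have h3 : n.choose (j + 1 + 1) = n.choose (j + 2) := rfl
      rw [cU]
      omega

end Pool.EGH.E8
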