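import Pool.Agent.H45.EGH.E8M
import Pool.Agent.H45.EGH.E7

/-!
# EGH: all but six of the quadrics are products of two linear forms
-/

set_option autoImplicit false

namespace Pool.EGH.E8

open MvPolynomial Pool.EGH Pool.EGC

section
variable {K : Type} [Field K] {N : ℕ}

/-- `J` is generated by a regular sequence of `k` linear forms, `r` quadrics and `s` products of
two linear forms. -/
inductive PCI : ℕ → ℕ → ℕ → Ideal (PR K N) → Prop
  | base {k r : ℕ} {J : Ideal (PR K N)} : MCI k r J → PCI k r 0 J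
  | prod {k r s : ℕ} {J : Ideal (PR K N)} {l m : PR K N} : PCI k r s J → l ∈ fm K N 1 →
      m ∈ fm K N 1 → Rg J (l * m) → PCI k r (s + 1) (J ⊔ Ideal.span {l * m})

theorem mul_fm {l m : PR K N} (hl : l ∈ fm K N 1) (hm : m ∈ fm K N 1) : l * m ∈ fm K N 2 :=
  MvPolynomial.IsHomogeneous.mul (m := 1) (n := 1) hl hm

theorem pci_hg {k r s : ℕ} {J : Ideal (PR K N)} (h : PCI k r s J) : Hg J := by
  induction h with
  | base h => exact (h_hga K N).2.2.2 _ _ _ h
  | prod _ hl hm _ ih => exact ((h_hga K N).2.1 _ 2 _ ih (mul_fm hl hm)).1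

theorem pci_per {k r s : ℕ} {J : Ideal (PR K N)} {l : PR K N} (h : PCI k r s J)
    (hl : l ∈ fm K N 1) (hr : Rg J l) : PCI (k + 1) r s (J ⊔ Ideal.span {l}) := by
  induction h with
  | base h => exact PCI.base (h_per K N _ _ _ l h hl hr)
  | @prod s J l' m' h' hl' hm' hr' ih =>
    obtain ⟨h3, h4⟩ := h_prm K N 2 1 J (l' * m') l (pci_hg h') (by norm_num) (by norm_num)
      (mul_fm hl' hm') hl hr' hr
    have h5 := PCI.prod (ih h3) hl' hm' h4
    have h6 : J ⊔ Ideal.span {l} ⊔ Ideal.span {l' * m'} =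
        J ⊔ Ideal.span {l' * m'} ⊔ Ideal.span {l} := sup_right_comm _ _ _
    rw [h6] at h5
    exact h5

theorem rg_left {J : Ideal (PR K N)} {l m : PR K N} (h : Rg J (l * m)) : Rg J l := by
  intro z hz
  apply h z
  have : l * m * z = m * (l * z) := by ring
  rw [this]
  exact J.mul_mem_left m hz

theorem rg_right {J : Ideal (PR K N)} {l m : PR K N} (h : Rg J (l * m)) : Rg J m := by
  intro z hz
  apply h z
  rw [mul_assoc]
  exact J.mul_mem_left l hz

/-- The growth of the ideals which contain such an ideal. -/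
theorem gr_pci [IsAlgClosed K] (r : ℕ) (hr : r ≤ 6) (s : ℕ) : ∀ (k : ℕ) (J I : Ideal (PR K N)),
    PCI k r s J → k + (r + s) = N → J ≤ I → Hg I → Gr (r + s) I := by
  induction s with
  | zero =>
    intro k J I hJ hk hJI hI
    cases hJ with
    | base h => exact gr_of_rz (f_bas K N k r J I hk hr h hJI hI)
  | succ s ih =>
    intro k J I hJ hk hJI hI
    cases hJ with
    | @prod _ J' l m h hl hm hrg =>
      have hJ'I : J' ≤ I := le_sup_left.trans hJI
      have hlm : l * m ∈ I := hJI (Ideal.mem_sup_right (Ideal.mem_span_singleton_self _))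
      have hml : m * l ∈ I := by rw [mul_comm]; exact hlm
      have p1 := pci_per h hl (rg_left hrg)
      have p2 := pci_per h hm (rg_right hrg)
      have q1 : J' ⊔ Ideal.span {l} ≤ I ⊔ Ideal.span {l} := sup_le_sup_right hJ'I _
      have q2 : J' ⊔ Ideal.span {m} ≤ I ⊔ Ideal.span {m} := sup_le_sup_right hJ'I _
      have hIl : I ⊔ Ideal.span {m} ≤ clI I l :=
        sup_le (fun f hf => I.mul_mem_left l hf) ((Ideal.span_singleton_le_iff_mem _).2 hlm)
      have hIm : I ⊔ Ideal.span {l} ≤ clI I m :=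
        sup_le (fun f hf => I.mul_mem_left m hf) ((Ideal.span_singleton_le_iff_mem _).2 hml)
      obtain ⟨n1, n3⟩ := (h_hga K N).2.1 I 1 l hI hl
      obtain ⟨n2, n4⟩ := (h_hga K N).2.1 I 1 m hI hm
      exact gr_step I l m hI hl hm hlm
        (ih (k + 1) _ _ p1 (by omega) q1 n1)
        (ih (k + 1) _ _ p2 (by omega) q2 n2)
        (ih (k + 1) _ _ p2 (by omega) (q2.trans hIl) n3)
        (ih (k + 1) _ _ p1 (by omega) (q1.trans hIm) n4)

/-- From lists to ideals. -/
theorem pci_list (l1 : List (PR K N)) (h1 : ∀ f ∈ l1, f.IsHomogeneous 2) (l2 : List (PR K N)) :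
    (∀ f ∈ l2, ∃ l ∈ fm K N 1, ∃ m ∈ fm K N 1, f = l * m) →
    RingTheory.Sequence.IsWeaklyRegular (PR K N) (l1 ++ l2) →
    PCI 0 l1.length l2.length (Ideal.ofList (l1 ++ l2)) := by
  induction l2 using List.reverseRecOn with
  | nil =>
    intro _ hr
    rw [List.append_nil] at hr ⊢
    exact PCI.base (h_rgl K N l1 h1 hr)
  | append_singleton t a ih =>
    intro hh hr
    rw [← List.append_assoc] at hr ⊢
    rw [RingTheory.Sequence.isWeaklyRegular_append_iff] at hr
    obtain ⟨h3, h2⟩ := hr
    rw [RingTheory.Sequence.isWeaklyRegular_singleton_iff] at h2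
    have h3' : Rg (Ideal.ofList (l1 ++ t)) a := by
      intro z hz
      have h4 : a • (Submodule.Quotient.mk z :
          PR K N ⧸ (Ideal.ofList (l1 ++ t) • ⊤ : Submodule (PR K N) (PR K N))) = a • 0 := by
        rw [smul_zero, ← Submodule.Quotient.mk_smul, Submodule.Quotient.mk_eq_zero,
          smul_eq_mul, Ideal.mul_top]
        exact hz
      have h5 := h2 h4
      rw [Submodule.Quotient.mk_eq_zero, Ideal.smul_eq_mul, Ideal.mul_top] at h5
      exact h5
    obtain ⟨l, hl, m, hm, hlm⟩ := hh a (by simp)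
    rw [hlm] at h3'
    have h4 := PCI.prod (ih (fun f hf => hh f (List.mem_append_left _ hf)) h3) hl hm h3'
    rw [Ideal.ofList_append, Ideal.ofList_singleton, List.length_append, hlm]
    exact h4

end

/-- **Theorem.** The bound of Eisenbud, Green and Harris for ideals which contain a regular
sequence of `n` quadrics in `n` variables, all but the first six of which are products of two
linear forms over the algebraic closure. -/
theorem egh_e8 (K : Type) [Field K] (n : ℕ) (I : Ideal (MvPolynomial (Fin n) K))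
    (hI : ∀ f ∈ I, ∀ d : ℕ, MvPolynomial.homogeneousComponent d f ∈ I)
    (rs : List (MvPolynomial (Fin n) K)) (hlen : rs.length = n)
    (hrs : ∀ f ∈ rs, f.IsHomogeneous 2 ∧ f ∈ I)
    (hreg : RingTheory.Sequence.IsRegular (MvPolynomial (Fin n) K) rs)
    (hprod : ∀ f ∈ rs.drop 6, ∃ l m : MvPolynomial (Fin n) (AlgebraicClosure K),
      l.IsHomogeneous 1 ∧ m.IsHomogeneous 1 ∧
        MvPolynomial.map (algebraMap K (AlgebraicClosure K)) f = l * m)
    (i : ℕ) (m : ℕ → ℕ) (hm : ∀ k : ℕ, 1 ≤ k → k < i → m k < m (k + 1))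
    (hsum : Module.finrank K (MvPolynomial.homogeneousSubmodule (Fin n) K i) -
            Module.finrank K
              ↥(I.restrictScalars K ⊓ MvPolynomial.homogeneousSubmodule (Fin n) K i)
          = ∑ k ∈ Finset.Icc 1 i, (m k).choose k) :
    Module.finrank K (MvPolynomial.homogeneousSubmodule (Fin n) K (i + 1)) -
        Module.finrank K
          ↥(I.restrictScalars K ⊓ MvPolynomial.homogeneousSubmodule (Fin n) K (i + 1))
      ≤ ∑ k ∈ Finset.Icc 1 i, (m k).choose (k + 1) := by
  have hwr := Bac.wr_map (AlgebraicClosure K) hreg.toIsWeaklyRegular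
  have hsplit : rs.map (MvPolynomial.map (algebraMap K (AlgebraicClosure K))) =
      (rs.take 6).map (MvPolynomial.map (algebraMap K (AlgebraicClosure K))) ++
        (rs.drop 6).map (MvPolynomial.map (algebraMap K (AlgebraicClosure K))) := by
    rw [← List.map_append, List.take_append_drop]
  rw [hsplit] at hwr
  have hP := pci_list _ (by
    intro f hf
    rw [List.mem_map] at hf
    obtain ⟨g, hg, rfl⟩ := hf
    exact MvPolynomial.IsHomogeneous.map (hrs g (List.mem_of_mem_take hg)).1 _) _ (by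
    intro f hf
    rw [List.mem_map] at hf
    obtain ⟨g, hg, rfl⟩ := hf
    obtain ⟨l, m, h1, h2, h3⟩ := hprod g hg
    exact ⟨l, h1, m, h2, h3⟩) hwr
  rw [← hsplit, List.length_map, List.length_map] at hP
  have hlen2 : (rs.take 6).length + (rs.drop 6).length = n := by
    rw [← List.length_append, List.take_append_drop, hlen]
  have h6 : (rs.take 6).length ≤ 6 := by
    rw [List.length_take]
    exact min_le_left _ _
  have hle : Ideal.ofList (rs.map (MvPolynomial.map (algebraMap K (AlgebraicClosure K)))) ≤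
      I.map (MvPolynomial.map (algebraMap K (AlgebraicClosure K))) := by
    refine Ideal.span_le.2 fun f hf => ?_
    obtain ⟨g, hg, rfl⟩ := List.mem_map.1 hf
    exact Ideal.mem_map_of_mem _ (hrs g hg).2
  have hG := gr_pci _ h6 _ 0 _ _ hP (by rw [hlen2, zero_add]) hle (Bac.hg_map _ hI)
  rw [hlen2] at hG
  obtain ⟨g1, g2⟩ := hG
  have hfi := Bac.hf_map (AlgebraicClosure K) (I := I) hI
  obtain ⟨B, hB, hBc⟩ := (f_sge n (cp n n) i).1
    ((Mo (cp n n) i).card - hf I i) (Nat.sub_le _ _)
  have k1 := g1 i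
  rw [hfi] at k1
  have k2 := g2 i B hB (by rw [hfi]; omega)
  rw [hfi] at k2
  have hs : hf I i = ∑ k ∈ Finset.Icc 1 i, (m k).choose k := hsum
  have k3 := mag n i B m hB hm (by rw [← hs]; omega)
  change hf I (i + 1) ≤ _
  omega

end Pool.EGH.E8
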