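import Pool.Agent.H94.EGC.All

/-!
# EGH: ideals containing a product of two linear forms, the step
-/

set_option autoImplicit false

namespace Pool.EGH.E8

open MvPolynomial Pool.EGH Pool.EGC

theorem f_mom : MOMStmt := t_mom
theorem f_lxo : LXOStmt := t_lxo
theorem f_sge : SGEStmt := t_SGE f_lxo
theorem f_sup : SUPStmt := t_SUP f_lxo f_mom
theorem f_sl1 : SL1Stmt := t_sl1 f_mom
theorem f_sl2 : SL2Stmt := t_sl2 f_mom
theorem f_sl3 : SL3Stmt := t_sl3 f_mom f_sl1 f_sl2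
theorem f_sl4 : SL4Stmt := t_sl4 f_mom f_sl1 f_sl2
theorem f_top : TOPStmt := t_top f_lxo
theorem f_cmw : CMWStmt := t_cmw f_mom f_lxo f_top
theorem f_cmp : CMPStmt := t_cmp f_sge f_sup f_sl1 f_sl2 f_sl3 f_sl4 f_cmw
theorem f_clt : CLTStmt := t_clt (t_cl1 f_mom) (t_CL2 f_mom) (t_cls f_lxo f_top f_cmp ex1 ex2)
theorem f_moc : MOCStmt := t_moc f_mom
theorem f_bas : BASStmt :=
  t_bas (t_tr1 h_lsh) t_tr2 t_tr3 (t_fc6 f_moc f_sl1 f_sl2 f_sl3) f_moc f_sge f_sup h_gro h_chf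
    h_mon

theorem cp_succ (n : ℕ) (i : Fin (n + 1)) : (cp (n + 1) (n + 1)) ∘ i.succAbove = cp n n := by
  funext j
  have := (i.succAbove j).isLt
  simp [cp]
  omega

theorem cp_true (n : ℕ) (i : Fin n) : cp n n i = true := by simp [cp]

theorem an_cp (n : ℕ) : An (cp n n) := fun i _ _ _ => cp_true n i

theorem up_sub {m : ℕ} (c : Fin m → Bool) (d : ℕ) (A : Finset (Fin m → ℕ)) :
    up c d A ⊆ Mo c (d + 1) := Finset.filter_subset _ _

theorem up_mono {m : ℕ} (c : Fin m → Bool) (d : ℕ) {A B : Finset (Fin m → ℕ)} (h : A ⊆ B) :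
    up c d A ⊆ up c d B := by
  intro x hx
  rw [(f_mom m c d x).2] at hx ⊢
  obtain ⟨h1, y, hy, h2⟩ := hx
  exact ⟨h1, y, h hy, h2⟩

theorem up_empty {m : ℕ} (c : Fin m → Bool) (d : ℕ) : up c d ∅ = ∅ := by
  unfold up
  simp

/-- The size of a set in terms of its slices. -/
theorem card_sl (n e : ℕ) (i : Fin (n + 1)) (B : Finset (Fin (n + 1) → ℕ))
    (hB : B ⊆ Mo (cp (n + 1) (n + 1)) (e + 1)) :
    B.card = (sl i 0 B).card + (sl i 1 B).card := by
  obtain ⟨-, -, -, u4, u5⟩ := f_sl1 n (cp (n + 1) (n + 1)) (e + 1) i B hB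
  rw [u5, Finset.sum_range_succ', Finset.sum_range_succ']
  have : ∑ k ∈ Finset.range e, (sl i (k + 1 + 1) B).card = 0 := by
    apply Finset.sum_eq_zero
    intro k _
    rw [u4 (cp_true _ _) (k + 1 + 1) (by omega)]
    rfl
  rw [this]
  ring

/-- The lower slice of the shadow. -/
theorem sl0_up (n d : ℕ) (i : Fin (n + 1)) (A : Finset (Fin (n + 1) → ℕ))
    (hA : A ⊆ Mo (cp (n + 1) (n + 1)) d) :
    sl i 0 (up (cp (n + 1) (n + 1)) d A) = up (cp n n) d (sl i 0 A) := by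
  have h3 := f_sl3 n (cp (n + 1) (n + 1)) d i A hA
  rw [cp_succ] at h3
  ext x
  rw [h3 0 (fun _ => Nat.zero_le _)]
  simp

/-- The upper slice of the shadow. -/
theorem sl1_up (n d : ℕ) (i : Fin (n + 1)) (A : Finset (Fin (n + 1) → ℕ))
    (hA : A ⊆ Mo (cp (n + 1) (n + 1)) (d + 1)) (x : Fin n → ℕ) :
    x ∈ sl i 1 (up (cp (n + 1) (n + 1)) (d + 1) A) ↔
      x ∈ up (cp n n) d (sl i 1 A) ∨ x ∈ sl i 0 A := by
  have h3 := f_sl3 n (cp (n + 1) (n + 1)) (d + 1) i A hA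
  rw [cp_succ] at h3
  rw [h3 1 (fun _ => le_rfl)]
  simp

variable {K : Type} [Field K] {N : ℕ}

/-- The growth of `I` is at most the growth of the segments. -/
def Gr (n : ℕ) (I : Ideal (PR K N)) : Prop :=
  (∀ i, hf I i ≤ (Mo (cp n n) i).card) ∧
    ∀ (i : ℕ) (B : Finset (Fin n → ℕ)), Sg (cp n n) i B →
      B.card + hf I i = (Mo (cp n n) i).card →
      (up (cp n n) i B).card + hf I (i + 1) ≤ (Mo (cp n n) (i + 1)).card

theorem gr_of_rz {n : ℕ} {I : Ideal (PR K N)} (h : Rz I (cp n n)) : Gr n I := by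
  obtain ⟨A, h1, h2, h3⟩ := h
  refine ⟨fun i => by have := h3 i; omega, ?_⟩
  intro i B hB hc
  have h4 := h3 i
  have h5 := (f_sge n (cp n n) i).2 B (A i) hB (h1 i) (by omega)
  have h6 := Finset.card_le_card ((up_mono (cp n n) i h5).trans (h2 i))
  have h7 := h3 (i + 1)
  omega

theorem gr_step_aux {n : ℕ} (I : Ideal (PR K N)) (l m : PR K N) (hI : Hg I)
    (hl : l ∈ fm K N 1) (hlm : l * m ∈ I) (g1 : Gr n (I ⊔ Ideal.span {l}))
    (g3 : Gr n (clI I l)) (j : ℕ)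
    (hx : hf (I ⊔ Ideal.span {m}) (j + 1) ≤ hf (I ⊔ Ideal.span {l}) (j + 1))
    (B : Finset (Fin (n + 1) → ℕ)) (hB : Sg (cp (n + 1) (n + 1)) (j + 1) B)
    (hc : B.card + hf I (j + 1) = (Mo (cp (n + 1) (n + 1)) (j + 1)).card) :
    (up (cp (n + 1) (n + 1)) (j + 1) B).card + hf I (j + 1 + 1) ≤
      (Mo (cp (n + 1) (n + 1)) (j + 1 + 1)).card := by
  obtain ⟨a1, -⟩ := h_col K N 1 I l hI hl
  have hsl : I ⊔ Ideal.span {m} ≤ clI I l :=
    sup_le (fun f hf => I.mul_mem_left l hf) ((Ideal.span_singleton_le_iff_mem _).2 hlm)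
  have hle := (h_mon K N _ _ (j + 1) hsl).1
  have e1 := a1 j
  have e2 := a1 (j + 1)
  -- the two segments
  obtain ⟨L0, hL0, hL0c⟩ := (f_sge n (cp n n) (j + 1)).1
    ((Mo (cp n n) (j + 1)).card - hf (I ⊔ Ideal.span {l}) (j + 1)) (Nat.sub_le _ _)
  obtain ⟨L1, hL1, hL1c⟩ := (f_sge n (cp n n) j).1
    ((Mo (cp n n) j).card - hf (clI I l) j) (Nat.sub_le _ _)
  have b1 := g1.1 (j + 1)
  have b3 := g3.1 j
  have k1 := g1.2 (j + 1) L0 hL0 (by omega)
  have k3 := g3.2 j L1 hL1 (by omega)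
  -- the set with these slices
  have hcs := cp_succ n (0 : Fin (n + 1))
  obtain ⟨A, hAM, hAs⟩ := f_sl4 n (cp (n + 1) (n + 1)) (j + 1) 0
    (fun t => if t = 0 then L0 else if t = 1 then L1 else ∅) (by
      intro t ht
      rw [hcs]
      by_cases h0 : t = 0
      · subst h0
        rw [if_pos rfl]
        exact hL0.1
      · rw [if_neg h0]
        by_cases h1 : t = 1
        · subst h1
          rw [if_pos rfl]
          exact hL1.1
        · rw [if_neg h1]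
          exact Finset.empty_subset _)
  have s0 : sl 0 0 A = L0 := by
    rw [hAs 0 (by omega) (fun _ => by omega)]
    rfl
  have s1 : sl 0 1 A = L1 := by
    rw [hAs 1 (by omega) (fun _ => by omega)]
    rfl
  have cA := card_sl n j 0 A hAM
  have cU := card_sl n (j + 1) 0 (up (cp (n + 1) (n + 1)) (j + 1) A) (up_sub _ _ _)
  rw [s0, s1] at cA
  rw [sl0_up n (j + 1) 0 A hAM, s0] at cU
  have hU1 : sl 0 1 (up (cp (n + 1) (n + 1)) (j + 1) A) = up (cp n n) j L1 ∪ L0 := by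
    ext x
    rw [sl1_up n j 0 A hAM, s0, s1, Finset.mem_union]
  rw [hU1] at cU
  -- the union of two segments
  have hsU := f_sup n (cp n n) j L1 hL1
  have hun : (up (cp n n) j L1 ∪ L0).card + hf (clI I l) (j + 1) ≤ (Mo (cp n n) (j + 1)).card := by
    rcases Nat.le_total (up (cp n n) j L1).card L0.card with h | h
    · rw [Finset.union_eq_right.2 ((f_sge n (cp n n) (j + 1)).2 _ _ hsU hL0 h)]
      omega
    · rw [Finset.union_eq_left.2 ((f_sge n (cp n n) (j + 1)).2 _ _ hL0 hsU h)]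
      exact k3
  -- the theorem of Clements and Lindström
  have m1 : (Mo (cp (n + 1) (n + 1)) (j + 1)).card =
      (Mo (cp n n) (j + 1)).card + (Mo (cp n n) j).card := by
    rw [f_moc, f_moc, f_moc, Nat.choose_succ_succ' n j, Nat.add_comm]
  have m2 : (Mo (cp (n + 1) (n + 1)) (j + 1 + 1)).card =
      (Mo (cp n n) (j + 1 + 1)).card + (Mo (cp n n) (j + 1)).card := by
    rw [f_moc, f_moc, f_moc, Nat.choose_succ_succ' n (j + 1), Nat.add_comm]
  have hfin := f_clt (n + 1) (cp (n + 1) (n + 1)) (an_cp (n + 1)) (j + 1) A B hAM hB (by omega)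
  omega

/-- The step. -/
theorem gr_step {n : ℕ} (I : Ideal (PR K N)) (l m : PR K N) (hI : Hg I) (hl : l ∈ fm K N 1)
    (hm : m ∈ fm K N 1) (hlm : l * m ∈ I) (g1 : Gr n (I ⊔ Ideal.span {l}))
    (g2 : Gr n (I ⊔ Ideal.span {m})) (g3 : Gr n (clI I l)) (g4 : Gr n (clI I m)) :
    Gr (n + 1) I := by
  obtain ⟨a1, a2⟩ := h_col K N 1 I l hI hl
  have first : ∀ i, hf I i ≤ (Mo (cp (n + 1) (n + 1)) i).card := by
    intro i
    rw [f_moc]
    rcases Nat.eq_zero_or_pos i with h | h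
    · subst h
      have h1 := g1.1 0
      rw [a2 0 (by omega), f_moc] at h1
      simpa using h1
    · obtain ⟨j, rfl⟩ : ∃ j, i = j + 1 := ⟨i - 1, by omega⟩
      have h1 := g1.1 (j + 1)
      have h3 := g3.1 j
      rw [f_moc] at h1 h3
      rw [Nat.choose_succ_succ' n j, ← a1 j]
      omega
  refine ⟨first, ?_⟩
  intro i B hB hc
  rcases Nat.eq_zero_or_pos i with h | h
  · subst h
    have h1 := first 0
    have h2 := first (0 + 1)
    rw [f_moc, Nat.choose_zero_right] at h1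
    rcases Nat.eq_zero_or_pos (hf I 0) with h0 | h0
    · rw [BASaux.hf_zero h_mon I h0 (0 + 1), Nat.add_zero]
      exact Finset.card_le_card (up_sub _ _ _)
    · rw [f_moc, Nat.choose_zero_right] at hc
      have hB0 : B = ∅ := Finset.card_eq_zero.1 (by omega)
      rw [hB0, up_empty, Finset.card_empty]
      omega
  · obtain ⟨j, rfl⟩ : ∃ j, i = j + 1 := ⟨i - 1, by omega⟩
    rcases Nat.le_total (hf (I ⊔ Ideal.span {m}) (j + 1)) (hf (I ⊔ Ideal.span {l}) (j + 1))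
      with hx | hx
    · exact gr_step_aux I l m hI hl hlm g1 g3 j hx B hB hc
    · exact gr_step_aux I m l hI hm (by rw [mul_comm]; exact hlm) g2 g4 j hx B hB hc

end Pool.EGH.E8
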