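import Pool.Agent.H45.EGH.E8P

/-!
# EGH: regular sequences of non-full length

The reduction of Caviglia and Maclagan (H94/EGC) for two larger classes of ideals: all but the
first six quadrics are products of two linear forms, and the Hilbert function in degree two is at
most twelve.
-/

set_option autoImplicit false

namespace Pool.EGH.E9

open MvPolynomial Pool.EGH Pool.EGC Pool.EGH.E8

theorem f_hfs : HFSStmt := t_hfs h_col h_hga
theorem f_stp : STPStmt := t_stp (t_rzc f_clt f_sge f_sup) t_snc f_hfs h_mon f_sge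
theorem f_lex : LEXStmt := t_lex t_mni t_lxm f_lxo f_mom h_fin

section
variable {K : Type} [Field K] {N : ℕ}

/-- From the growth bound to a lexicographic family. -/
theorem rz_of_gr {n : ℕ} {I : Ideal (PR K N)} (h : Gr n I) : Rz I (cp n n) := by
  obtain ⟨h1, h2⟩ := h
  have hA : ∀ d, ∃ A, Sg (cp n n) d A ∧ A.card = (Mo (cp n n) d).card - hf I d := fun d =>
    (f_sge n (cp n n) d).1 _ (Nat.sub_le _ _)
  choose A hA1 hA2 using hA
  have hA3 : ∀ d, hf I d + (A d).card = (Mo (cp n n) d).card := by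
    intro d
    have := h1 d
    rw [hA2]
    omega
  refine ⟨A, hA1, fun d => ?_, hA3⟩
  apply (f_sge n (cp n n) (d + 1)).2 _ _ (f_sup n (cp n n) d (A d) (hA1 d)) (hA1 (d + 1))
  have h4 := h2 d (A d) (hA1 d) (by rw [Nat.add_comm]; exact hA3 d)
  have h5 := hA3 (d + 1)
  omega

theorem mci_of_pci {k r s : ℕ} {J : Ideal (PR K N)} (h : PCI k r s J) : MCI k (r + s) J := by
  induction h with
  | base h => exact h
  | prod _ hl hm hr ih => exact MCI.quad ih (mul_fm hl hm) hr

/-- The induction of Caviglia and Maclagan for a class of pairs of ideals. -/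
theorem ind_gen [IsAlgClosed K] (r : ℕ) (C : ℕ → Ideal (PR K N) → Ideal (PR K N) → Prop)
    (h1 : ∀ k J I, C k J I → MCI k r J ∧ J ≤ I ∧ Hg I)
    (h2 : ∀ k J I, C k J I → k + r = N → Rz I (cp r r))
    (h3 : ∀ k J I l, C k J I → l ∈ fm K N 1 → Rg J l → ∀ I', Hg I' → I ≤ I' →
      J ⊔ Ideal.span {l} ≤ I' → C (k + 1) (J ⊔ Ideal.span {l}) I') (t : ℕ) :
    ∀ (k : ℕ) (J I : Ideal (PR K N)), k + (r + t) = N → C k J I → Rz I (cp r (r + t)) := by
  have hinf : Infinite K := IsAlgClosed.instInfinite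
  induction t with
  | zero =>
    intro k J I hk hC
    exact h2 k J I hC hk
  | succ t ih =>
    intro k J I hk hC
    obtain ⟨hJ, hJI, hI⟩ := h1 k J I hC
    have hJg : Hg J := (h_hga K N).2.2.2 k r J hJ
    obtain ⟨l, hl, hreg⟩ := h_rlf K N J hJg (h_pns K N k r J hJ (by omega))
    obtain ⟨g1, -⟩ := f_hfs K N I l hI hl
    refine f_stp K N (r + t) r I l (by omega) hI hl ?_
    intro j
    obtain ⟨g2, g3, -⟩ := g1 j
    exact ih (k + 1) (J ⊔ Ideal.span {l}) (cj I l j ⊔ Ideal.span {l}) (by omega)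
      (h3 k J I l hC hl hreg _ g2 (g3.trans le_sup_left)
        (sup_le_sup_right (hJI.trans g3) _))

/-- All but six of the quadrics are products. -/
theorem rz_pci [IsAlgClosed K] (r s : ℕ) (hr : r ≤ 6) (k m : ℕ) (J I : Ideal (PR K N))
    (hJ : PCI k r s J) (hk : k + m = N) (hm : r + s ≤ m) (hJI : J ≤ I) (hI : Hg I) :
    Rz I (cp (r + s) m) := by
  obtain ⟨t, rfl⟩ := Nat.exists_eq_add_of_le hm
  refine ind_gen (r + s) (fun k J I => PCI k r s J ∧ J ≤ I ∧ Hg I) ?_ ?_ ?_ t k J I hk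
    ⟨hJ, hJI, hI⟩
  · rintro k J I ⟨a, b, c⟩
    exact ⟨mci_of_pci a, b, c⟩
  · rintro k J I ⟨a, b, c⟩ hk
    exact rz_of_gr (gr_pci r hr s k J I a hk b c)
  · rintro k J I l ⟨a, _, _⟩ hl hreg I' g1 _ g3
    exact ⟨pci_per a hl hreg, g3, g1⟩

/-- The growth if the Hilbert function in degree two is at most twelve. -/
theorem gr12 [IsAlgClosed K] (n : ℕ) : ∀ (Q I : Ideal (PR K N)), CI n Q → Hg I → Q ≤ I →
    hf I 2 ≤ 12 → Gr n I := by
  have hinf : Infinite K := IsAlgClosed.instInfinite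
  induction n with
  | zero =>
    intro Q I hQ hI hQI _
    obtain ⟨k, hk, hM⟩ := hQ
    exact gr_of_rz (f_bas K N k 0 Q I hk (by omega) hM hQI hI)
  | succ n ih =>
    intro Q I hQ hI hQI h12
    rcases Nat.lt_or_ge n 6 with hn | hn
    · obtain ⟨k, hk, hM⟩ := hQ
      exact gr_of_rz (f_bas K N k (n + 1) Q I hk (by omega) hM hQI hI)
    obtain ⟨l, m, hl, hm, hlQ, hmQ, hlm⟩ := h_rqe K N (n + 1) Q I hQ hI hQI (by omega) (by omega)
    have hml : m * l ∈ I := by rw [mul_comm]; exact hlm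
    obtain ⟨a1, a2, a3, a4, a5, Q1, a6, a7⟩ := h_clb K N n Q I l m hQ hI hQI hl hm hlQ hlm
    obtain ⟨c1, c2, c3, c4, c5, Q2, c6, c7⟩ := h_clb K N n Q I m l hQ hI hQI hm hl hmQ hml
    have hIl : I ≤ clI I l := fun f hf => I.mul_mem_left l hf
    have hIm : I ≤ clI I m := fun f hf => I.mul_mem_left m hf
    have hsl : I ⊔ Ideal.span {m} ≤ clI I l :=
      sup_le hIl ((Ideal.span_singleton_le_iff_mem _).2 hlm)
    have hsm : I ⊔ Ideal.span {l} ≤ clI I m :=
      sup_le hIm ((Ideal.span_singleton_le_iff_mem _).2 hml)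
    have b1 : hf (I ⊔ Ideal.span {l}) 2 ≤ 12 := (h_mon K N I _ 2 le_sup_left).1.trans h12
    have b2' : hf (I ⊔ Ideal.span {m}) 2 ≤ 12 := (h_mon K N I _ 2 le_sup_left).1.trans h12
    have b3' : hf (clI I l) 2 ≤ 12 := (h_mon K N I _ 2 hIl).1.trans h12
    have b4' : hf (clI I m) 2 ≤ 12 := (h_mon K N I _ 2 hIm).1.trans h12
    exact gr_step I l m hI hl hm hlm (ih Q1 _ a6 a5 a7 b1) (ih Q2 _ c6 c5 c7 b2')
      (ih Q2 _ c6 a3 (c7.trans hsl) b3') (ih Q1 _ a6 c3 (a7.trans hsm) b4')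

/-- The Hilbert function in degree two is at most twelve. -/
theorem rz12 [IsAlgClosed K] (k m r : ℕ) (J I : Ideal (PR K N)) (hJ : MCI k r J)
    (hk : k + m = N) (hm : r ≤ m) (hJI : J ≤ I) (hI : Hg I) (h12 : hf I 2 ≤ 12) :
    Rz I (cp r m) := by
  obtain ⟨t, rfl⟩ := Nat.exists_eq_add_of_le hm
  refine ind_gen r (fun k J I => MCI k r J ∧ J ≤ I ∧ Hg I ∧ hf I 2 ≤ 12) ?_ ?_ ?_ t k J I hk
    ⟨hJ, hJI, hI, h12⟩
  · rintro k J I ⟨a, b, c, -⟩
    exact ⟨a, b, c⟩
  · rintro k J I ⟨a, b, c, d⟩ hk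
    exact rz_of_gr (gr12 r J I ⟨k, hk, a⟩ c b d)
  · rintro k J I l ⟨a, _, _, d⟩ hl hreg I' g1 g2 g3
    exact ⟨h_per K N k r J l a hl hreg, g3, g1, (h_mon K N I I' 2 g2).1.trans d⟩

end

/-- **Theorem.** Ideals which contain a regular sequence of `r < n` quadrics, all but the first
six of which are products of two linear forms over the algebraic closure, have the Hilbert
function of a lex-plus-powers ideal. -/
theorem egn_products (K : Type) [Field K] (n r : ℕ) (hr : r < n) (I : Ideal (PR K n))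
    (f : Fin r → PR K n) (hI : ∀ p ∈ I, ∀ d : ℕ, MvPolynomial.homogeneousComponent d p ∈ I)
    (hf2 : ∀ i, (f i).IsHomogeneous 2) (hfI : ∀ i, f i ∈ I)
    (hreg : RingTheory.Sequence.IsRegular (PR K n) (List.ofFn f))
    (hprod : ∀ i : Fin r, 6 ≤ i.val → ∃ l m : MvPolynomial (Fin n) (AlgebraicClosure K),
      l.IsHomogeneous 1 ∧ m.IsHomogeneous 1 ∧
        MvPolynomial.map (algebraMap K (AlgebraicClosure K)) (f i) = l * m) :
    Ccl K n r hr I := by
  obtain ⟨rs, hrs⟩ : ∃ rs, rs = List.ofFn f := ⟨_, rfl⟩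
  have hlen : rs.length = r := by rw [hrs, List.length_ofFn]
  have hmem : ∀ g ∈ rs, g.IsHomogeneous 2 ∧ g ∈ I := by
    intro g hg
    rw [hrs] at hg
    obtain ⟨i, rfl⟩ := (List.mem_ofFn' f g).1 hg
    exact ⟨hf2 i, hfI i⟩
  have hdrop : ∀ g ∈ rs.drop 6, ∃ l m : MvPolynomial (Fin n) (AlgebraicClosure K),
      l.IsHomogeneous 1 ∧ m.IsHomogeneous 1 ∧
        MvPolynomial.map (algebraMap K (AlgebraicClosure K)) g = l * m := by
    intro g hg
    obtain ⟨j, hj, rfl⟩ := List.mem_iff_getElem.1 hg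
    rw [List.length_drop] at hj
    rw [List.getElem_drop]
    have h1 : rs[6 + j]'(by omega) = f ⟨6 + j, by omega⟩ := by
      subst hrs
      rw [List.getElem_ofFn]
    rw [h1]
    exact hprod _ (by simp)
  rw [← hrs] at hreg
  have hwr := Bac.wr_map (AlgebraicClosure K) hreg.toIsWeaklyRegular
  have hsplit : rs.map (MvPolynomial.map (algebraMap K (AlgebraicClosure K))) =
      (rs.take 6).map (MvPolynomial.map (algebraMap K (AlgebraicClosure K))) ++
        (rs.drop 6).map (MvPolynomial.map (algebraMap K (AlgebraicClosure K))) := by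
    rw [← List.map_append, List.take_append_drop]
  rw [hsplit] at hwr
  have hP := pci_list _ (by
    intro f hf
    rw [List.mem_map] at hf
    obtain ⟨g, hg, rfl⟩ := hf
    exact MvPolynomial.IsHomogeneous.map (hmem g (List.mem_of_mem_take hg)).1 _) _ (by
    intro f hf
    rw [List.mem_map] at hf
    obtain ⟨g, hg, rfl⟩ := hf
    obtain ⟨l, m, h1, h2, h3⟩ := hdrop g hg
    exact ⟨l, h1, m, h2, h3⟩) hwr
  rw [← hsplit, List.length_map, List.length_map] at hP
  have hlen2 : (rs.take 6).length + (rs.drop 6).length = r := by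
    rw [← List.length_append, List.take_append_drop, hlen]
  have h6 : (rs.take 6).length ≤ 6 := by
    rw [List.length_take]
    exact min_le_left _ _
  have hle : Ideal.ofList (rs.map (MvPolynomial.map (algebraMap K (AlgebraicClosure K)))) ≤
      I.map (MvPolynomial.map (algebraMap K (AlgebraicClosure K))) := by
    refine Ideal.span_le.2 fun f hf => ?_
    obtain ⟨g, hg, rfl⟩ := List.mem_map.1 hf
    exact Ideal.mem_map_of_mem _ (hmem g hg).2
  have hR := rz_pci (K := AlgebraicClosure K) (N := n) _ _ h6 0 n _ _ hP (zero_add n)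
    (by rw [hlen2]; exact hr.le) hle (Bac.hg_map _ hI)
  rw [hlen2] at hR
  obtain ⟨A, hA1, hA2, hA3⟩ := hR
  refine f_lex K n r hr I ⟨A, hA1, hA2, fun d => ?_⟩
  rw [← Bac.hf_map (AlgebraicClosure K) (I := I) hI d]
  exact hA3 d

/-- **Theorem.** Ideals which contain a regular sequence of `r < n` quadrics and for which the
Hilbert function of the quotient is at most twelve in degree two have the Hilbert function of a
lex-plus-powers ideal. -/
theorem egn_twelve (K : Type) [Field K] (n r : ℕ) (hr : r < n) (I : Ideal (PR K n))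
    (f : Fin r → PR K n) (hI : ∀ p ∈ I, ∀ d : ℕ, MvPolynomial.homogeneousComponent d p ∈ I)
    (hf2 : ∀ i, (f i).IsHomogeneous 2) (hfI : ∀ i, f i ∈ I)
    (hreg : RingTheory.Sequence.IsRegular (PR K n) (List.ofFn f))
    (h12 : hf I 2 ≤ 12) : Ccl K n r hr I := by
  have hmem : ∀ g ∈ List.ofFn f, g.IsHomogeneous 2 ∧ g ∈ I := by
    intro g hg
    obtain ⟨i, rfl⟩ := (List.mem_ofFn' f g).1 hg
    exact ⟨hf2 i, hfI i⟩
  obtain ⟨I', rs', hHg', hlen, h', hreg', hhf⟩ :=
    h_bac K n I (List.ofFn f) hI hmem hreg.toIsWeaklyRegular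
  have hlen' : rs'.length = r := by rw [hlen, List.length_ofFn]
  have hM := h_rgl (AlgebraicClosure K) n rs' (fun g hg => (h' g hg).1) hreg'
  rw [hlen'] at hM
  have hle : Ideal.ofList rs' ≤ I' := by
    unfold Ideal.ofList
    rw [Ideal.span_le]
    intro g hg
    exact (h' g hg).2
  obtain ⟨A, hA1, hA2, hA3⟩ := rz12 (K := AlgebraicClosure K) 0 n r (Ideal.ofList rs') I' hM
    (zero_add n) hr.le hle hHg' (by rw [hhf]; exact h12)
  exact f_lex K n r hr I ⟨A, hA1, hA2, fun d => by rw [← hhf]; exact hA3 d⟩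

end Pool.EGH.E9
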