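import Pool.Agent.H45.EGH.Defs

/-!
# EGH: statements of the modules, part 1 (regular sequences and Hilbert functions)
-/

set_option autoImplicit false

namespace Pool.EGH

open MvPolynomial

/-- FIN: the forms of degree `i` are finite dimensional. -/
def FINStmt : Prop := ∀ (K : Type) [Field K] (N i : ℕ), Module.Finite K ↥(fm K N i)

/-- HSB: the Hilbert series of the polynomial ring. -/
def HSBStmt : Prop :=
  ∀ (K : Type) [Field K] (N : ℕ),
    PowerSeries.mk (fun i => (Module.finrank K ↥(fm K N i) : ℤ)) * (1 - PowerSeries.X) ^ N = 1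

/-- HGA: homogeneous ideals. -/
def HGAStmt : Prop :=
  ∀ (K : Type) [Field K] (N : ℕ), Hg (⊥ : Ideal (PR K N)) ∧
    (∀ (I : Ideal (PR K N)) (d : ℕ) (f : PR K N), Hg I → f ∈ fm K N d →
      Hg (I ⊔ Ideal.span {f}) ∧ Hg (clI I f)) ∧
    (∀ I J : Ideal (PR K N), Hg I → Hg J → Hg (I ⊔ J)) ∧
    ∀ (k r : ℕ) (J : Ideal (PR K N)), MCI k r J → Hg J

/-- COL: the exact sequence of `I : f`, `I` and `I + (f)`. -/
def COLStmt : Prop :=
  ∀ (K : Type) [Field K] (N d : ℕ) (I : Ideal (PR K N)) (f : PR K N), Hg I → f ∈ fm K N d →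
    (∀ i, hf (I ⊔ Ideal.span {f}) (i + d) + hf (clI I f) i = hf I (i + d)) ∧
    ∀ i, i < d → hf (I ⊔ Ideal.span {f}) i = hf I i

/-- MON: the Hilbert function is antitone. -/
def MONStmt : Prop :=
  ∀ (K : Type) [Field K] (N : ℕ) (I J : Ideal (PR K N)) (i : ℕ), I ≤ J → hf J i ≤ hf I i ∧
    (hf J i = hf I i → ∀ f ∈ J, f ∈ fm K N i → f ∈ I)

/-- HSR: the Hilbert series of a mixed complete intersection. -/
def HSRStmt : Prop :=
  ∀ (K : Type) [Field K] (N k r : ℕ) (J : Ideal (PR K N)), MCI k r J →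
    PowerSeries.mk (fun i => (hf J i : ℤ)) * (1 - PowerSeries.X) ^ N =
      (1 - PowerSeries.X) ^ k * (1 - PowerSeries.X ^ 2) ^ r

/-- CHF: the Hilbert function of a complete intersection of `r` quadrics. -/
def CHFStmt : Prop :=
  ∀ (K : Type) [Field K] (N k r : ℕ) (Q : Ideal (PR K N)), k + r = N → MCI k r Q →
    ∀ i, hf Q i = r.choose i

/-- PRM: permutation of a homogeneous regular sequence of length two. -/
def PRMStmt : Prop :=
  ∀ (K : Type) [Field K] (N a b : ℕ) (J : Ideal (PR K N)) (f g : PR K N), Hg J → 1 ≤ a →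
    1 ≤ b → f ∈ fm K N a → g ∈ fm K N b → Rg J f → Rg (J ⊔ Ideal.span {f}) g →
    Rg J g ∧ Rg (J ⊔ Ideal.span {g}) f

/-- PER: a regular linear form may be put in front. -/
def PERStmt : Prop :=
  ∀ (K : Type) [Field K] (N k r : ℕ) (J : Ideal (PR K N)) (l : PR K N), MCI k r J →
    l ∈ fm K N 1 → Rg J l → MCI (k + 1) r (J ⊔ Ideal.span {l})

/-- LIN: ideals generated by linear forms. -/
def LINStmt : Prop :=
  ∀ (K : Type) [Field K] (N : ℕ) (L : Submodule K (PR K N)), L ≤ fm K N 1 →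
    MCI (Module.finrank K L) 0 (Ideal.span (L : Set (PR K N))) ∧
    (∀ l ∈ fm K N 1, l ∈ Ideal.span (L : Set (PR K N)) → l ∈ L) ∧
    ∀ l ∈ fm K N 1, l ∉ L → Rg (Ideal.span (L : Set (PR K N))) l

/-- LSH: the shape of the ideals generated by a regular sequence of linear forms. -/
def LSHStmt : Prop :=
  ∀ (K : Type) [Field K] (N k : ℕ) (J : Ideal (PR K N)), MCI k 0 J →
    ∃ L : Submodule K (PR K N), L ≤ fm K N 1 ∧ Module.finrank K L = k ∧
      J = Ideal.span (L : Set (PR K N))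

/-- SHP: the shape of a mixed complete intersection. -/
def SHPStmt : Prop :=
  ∀ (K : Type) [Field K] (N k r : ℕ) (Q : Ideal (PR K N)), MCI k r Q →
    ∃ L V : Submodule K (PR K N), L ≤ fm K N 1 ∧ Module.finrank K L = k ∧ V ≤ fm K N 2 ∧
      Module.finrank K V = r ∧ Q = Ideal.span (L : Set (PR K N)) ⊔ Ideal.span (V : Set (PR K N)) ∧
      ∀ l ∈ fm K N 1, l ∈ Q → l ∈ L

/-- RLF: existence of a regular linear form. -/
def RLFStmt : Prop :=
  ∀ (K : Type) [Field K] [Infinite K] (N : ℕ) (J : Ideal (PR K N)), Hg J →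
    (∀ z : PR K N, (∀ l ∈ fm K N 1, l * z ∈ J) → z ∈ J) → ∃ l ∈ fm K N 1, Rg J l

/-- RQF: existence of a regular form in a space of quadrics. -/
def RQFStmt : Prop :=
  ∀ (K : Type) [Field K] [Infinite K] (N m : ℕ) (J : Ideal (PR K N))
    (V V' : Submodule K (PR K N)), Hg J →
    (∀ z : PR K N, (∀ l ∈ fm K N 1, l * z ∈ J) → z ∈ J) → V ≤ fm K N 2 → V' < V →
    (∀ f ∈ fm K N m, f ∈ J ⊔ Ideal.span (V : Set (PR K N))) →
    ∃ q ∈ V, q ∉ V' ∧ Rg J q

/-- PNS: no socle for short sequences. -/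
def PNSStmt : Prop :=
  ∀ (K : Type) [Field K] [Infinite K] (N k r : ℕ) (J : Ideal (PR K N)), MCI k r J →
    k + r < N → ∀ z : PR K N, (∀ l ∈ fm K N 1, l * z ∈ J) → z ∈ J

/-- GOR: the socle of a complete intersection of `r` quadrics is in degree `r`. -/
def GORStmt : Prop :=
  ∀ (K : Type) [Field K] [Infinite K] (N k r : ℕ) (Q : Ideal (PR K N)), MCI k r Q →
    k + r = N → ∀ s < r, ∀ z ∈ fm K N s, (∀ l ∈ fm K N 1, l * z ∈ Q) → z ∈ Q

/-- EXC: exchange of a quadric by a linear form. -/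
def EXCStmt : Prop :=
  ∀ (K : Type) [Field K] [Infinite K] (N k r : ℕ) (Q : Ideal (PR K N)) (l : PR K N),
    MCI k (r + 1) Q → k + (r + 1) = N → l ∈ fm K N 1 → l ∉ Q →
    ∃ (J : Ideal (PR K N)) (q : PR K N), Q = J ⊔ Ideal.span {q} ∧ q ∈ fm K N 2 ∧ Rg J q ∧
      Rg J l ∧ MCI k r J

/-- LSY: no linear syzygies between the quadrics of a complete intersection. -/
def LSYStmt : Prop :=
  ∀ (K : Type) [Field K] (N k r : ℕ) (Q : Ideal (PR K N)) (L : Submodule K (PR K N)),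
    MCI k r Q → L ≤ fm K N 1 → (∀ l ∈ fm K N 1, l ∈ Q ↔ l ∈ L) →
    ∀ (t : ℕ) (p a : Fin t → PR K N), (∀ i, p i ∈ fm K N 2 ∧ p i ∈ Q) →
    (∀ x : Fin t → K, ∑ i, x i • p i ∈ Ideal.span (L : Set (PR K N)) → x = 0) →
    (∀ i, a i ∈ fm K N 1) → ∑ i, a i * p i ∈ Ideal.span (L : Set (PR K N)) →
    ∀ i, a i ∈ L

/-- RGL: from lists of quadrics. -/
def RGLStmt : Prop :=
  ∀ (K : Type) [Field K] (N : ℕ) (rs : List (PR K N)), (∀ f ∈ rs, f.IsHomogeneous 2) →
    RingTheory.Sequence.IsWeaklyRegular (PR K N) rs → MCI 0 rs.length (Ideal.ofList rs)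

/-- BAC: base change to the algebraic closure. -/
def BACStmt : Prop :=
  ∀ (K : Type) [Field K] (N : ℕ) (I : Ideal (PR K N)) (rs : List (PR K N)), Hg I →
    (∀ f ∈ rs, f.IsHomogeneous 2 ∧ f ∈ I) →
    RingTheory.Sequence.IsWeaklyRegular (PR K N) rs →
    ∃ (I' : Ideal (PR (AlgebraicClosure K) N)) (rs' : List (PR (AlgebraicClosure K) N)),
      Hg I' ∧ rs'.length = rs.length ∧ (∀ f ∈ rs', f.IsHomogeneous 2 ∧ f ∈ I') ∧
      RingTheory.Sequence.IsWeaklyRegular (PR (AlgebraicClosure K) N) rs' ∧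
      ∀ i, hf I' i = hf I i

/-- HOP: bilinear maps without nontrivial zeros. -/
def HOPStmt : Prop :=
  ∀ (K : Type) [Field K] [IsAlgClosed K] (V₁ V₂ W : Type) [AddCommGroup V₁] [Module K V₁]
    [AddCommGroup V₂] [Module K V₂] [AddCommGroup W] [Module K W] [Module.Finite K V₁]
    [Module.Finite K V₂] [Module.Finite K W] (β : V₁ →ₗ[K] V₂ →ₗ[K] W),
    1 ≤ Module.finrank K V₁ → 1 ≤ Module.finrank K V₂ →
    Module.finrank K W + 2 ≤ Module.finrank K V₁ + Module.finrank K V₂ →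
    ∃ v₁ v₂, v₁ ≠ 0 ∧ v₂ ≠ 0 ∧ β v₁ v₂ = 0

/-- HPA: HOP for polynomials: bihomogeneous polynomials of bidegree `(1, 1)` without common
nontrivial zeros. -/
def HPAStmt : Prop :=
  ∀ (K : Type) [Field K] [IsAlgClosed K] (a b c : ℕ) (β : Fin c → Fin a → Fin b → K),
    1 ≤ a → 1 ≤ b → c + 2 ≤ a + b →
    ∃ (x : Fin a → K) (y : Fin b → K), x ≠ 0 ∧ y ≠ 0 ∧
      ∀ k, ∑ i, ∑ j, β k i j * x i * y j = 0

end Pool.EGH
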