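import Pool.Agent.H45.EGH.S1

/-!
# EGH: statements of the modules, part 2 (the Gorenstein algebra, growth in easy degrees)
-/

set_option autoImplicit false

namespace Pool.EGH

open MvPolynomial

/-! ### The graded algebra -/

/-- GPM: the pieces are finite dimensional and multiply well. -/
def GPMStmt : Prop :=
  ∀ (K : Type) [Field K] (N : ℕ) (Q : Ideal (PR K N)),
    (∀ i, Module.Finite K ↥(gp Q i)) ∧ (∀ i j, gp Q i * gp Q j = gp Q (i + j)) ∧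
    (∀ V : Submodule K (PR K N ⧸ Q), gp Q 0 * V = V) ∧
    ∀ (i : ℕ) (f : PR K N), f ∈ fm K N i → Ideal.Quotient.mk Q f ∈ gp Q i

/-- GPD: the dimensions of the pieces. -/
def GPDStmt : Prop :=
  ∀ (K : Type) [Field K] (N : ℕ) (Q : Ideal (PR K N)),
    (Hg Q → ∀ i, Module.finrank K ↥(gp Q i) = hf Q i) ∧
    ∀ n : ℕ, CI n Q → ∀ i, Module.finrank K ↥(gp Q i) = n.choose i

/-- PAI: the pairing is perfect. -/
def PAIStmt : Prop :=
  ∀ (K : Type) [Field K] [Infinite K] (N n : ℕ) (Q : Ideal (PR K N)), CI n Q → ∀ i j : ℕ,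
    i + j ≤ n → ∀ z ∈ gp Q i, z ≠ 0 → ∃ y ∈ gp Q j, y * z ≠ 0

/-- ANN: the dimension of annihilators. -/
def ANNStmt : Prop :=
  ∀ (K : Type) [Field K] [Infinite K] (N n : ℕ) (Q : Ideal (PR K N)), CI n Q →
    ∀ i j m : ℕ, i + j + m = n → ∀ V : Submodule K (PR K N ⧸ Q), V ≤ gp Q i →
    Module.finrank K ↥(ann Q j V) + Module.finrank K ↥(gp Q m * V) = n.choose j

/-- DAN: double annihilators. -/
def DANStmt : Prop :=
  ∀ (K : Type) [Field K] [Infinite K] (N n : ℕ) (Q : Ideal (PR K N)), CI n Q →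
    ∀ i j : ℕ, i + j = n → ∀ V : Submodule K (PR K N ⧸ Q), V ≤ gp Q i →
    ann Q i (ann Q j V) = V

/-- ANM: annihilators in lower degrees. -/
def ANMStmt : Prop :=
  ∀ (K : Type) [Field K] [Infinite K] (N n : ℕ) (Q : Ideal (PR K N)), CI n Q →
    ∀ i j m : ℕ, i + j + m ≤ n → ∀ V : Submodule K (PR K N ⧸ Q), V ≤ gp Q i →
    ann Q j (gp Q m * V) = ann Q j V

/-- KIL: the elements killed by a linear form. -/
def KILStmt : Prop :=
  ∀ (K : Type) [Field K] [Infinite K] (N n : ℕ) (Q : Ideal (PR K N)) (l : PR K N),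
    CI (n + 1) Q → l ∈ fm K N 1 → l ∉ Q →
    ∃ Q' : Ideal (PR K N), CI n Q' ∧ l ∈ Q' ∧ Q' ≤ Q ⊔ Ideal.span {l} ∧
      ∃ φ : ↥(LinearMap.ker (LinearMap.lsmul (PR K N) (PR K N ⧸ Q) l)) →ₗ[PR K N] PR K N ⧸ Q',
        Function.Injective φ ∧ ∀ (i : ℕ) (z : PR K N ⧸ Q)
          (hz : z ∈ LinearMap.ker (LinearMap.lsmul (PR K N) (PR K N ⧸ Q) l)),
          z ∈ gp Q (i + 1) → φ ⟨z, hz⟩ ∈ gp Q' i

/-- KIU: the growth of a space killed by a linear form. -/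
def KIUStmt : Prop :=
  ∀ (K : Type) [Field K] [Infinite K] (N n i : ℕ) (Q : Ideal (PR K N)) (l : PR K N ⧸ Q)
    (V : Submodule K (PR K N ⧸ Q)), CI (n + 1) Q → l ∈ gp Q 1 → l ≠ 0 → V ≤ gp Q (i + 1) →
    (∀ v ∈ V, l * v = 0) →
    ∃ (Q' : Ideal (PR K N)) (V' : Submodule K (PR K N ⧸ Q')), CI n Q' ∧ V' ≤ gp Q' i ∧
      Module.finrank K V' = Module.finrank K V ∧ dg Q' V' = dg Q V

/-- QUO: the ideal `I + (l)` contains a complete intersection of one quadric less. -/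
def QUOStmt : Prop :=
  ∀ (K : Type) [Field K] [Infinite K] (N n : ℕ) (Q : Ideal (PR K N)) (l : PR K N),
    CI (n + 1) Q → l ∈ fm K N 1 → l ∉ Q →
    ∃ Q' : Ideal (PR K N), CI n Q' ∧ l ∈ Q' ∧ Q' ≤ Q ⊔ Ideal.span {l}

/-- ANV: the elements killed by a space of linear forms. -/
def ANVStmt : Prop :=
  ∀ (K : Type) [Field K] [Infinite K] (N n : ℕ) (Q : Ideal (PR K N)), CI n Q →
    ∀ V : Submodule K (PR K N ⧸ Q), V ≤ gp Q 1 → ∀ s ≤ n,
    Module.finrank K ↥(ann Q s V) ≤ (n - Module.finrank K V).choose (n - s)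

/-- GR1: growth from degree 1 to degree 2. -/
def GR1Stmt : Prop :=
  ∀ (K : Type) [Field K] [Infinite K] (N n : ℕ) (Q : Ideal (PR K N)), CI n Q → 2 ≤ n →
    ∀ V : Submodule K (PR K N ⧸ Q), V ≤ gp Q 1 →
    n.choose 2 ≤ dg Q V + (n - Module.finrank K V).choose 2

/-- GRD: growth from degree `n - 2` to degree `n - 1`. -/
def GRDStmt : Prop :=
  ∀ (K : Type) [Field K] [Infinite K] (N n : ℕ) (Q : Ideal (PR K N)), CI (n + 2) Q →
    ∀ V : Submodule K (PR K N ⧸ Q), V ≤ gp Q n → Module.finrank K V ≤ (dg Q V).choose 2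

/-- GRT: growth from degree `n - 1` to degree `n`. -/
def GRTStmt : Prop :=
  ∀ (K : Type) [Field K] [Infinite K] (N n : ℕ) (Q : Ideal (PR K N)), CI (n + 1) Q →
    ∀ V : Submodule K (PR K N ⧸ Q), V ≤ gp Q n → V ≠ ⊥ → dg Q V = 1

/-- RNK: multiplication by `w` and growth. -/
def RNKStmt : Prop :=
  ∀ (K : Type) [Field K] (N i : ℕ) (Q : Ideal (PR K N)) (w : PR K N ⧸ Q)
    (V : Submodule K (PR K N ⧸ Q)), V ≤ gp Q i →
    Module.finrank K ↥(kr w V) + Module.finrank K ↥(ml w V) = Module.finrank K V ∧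
    dg Q (kr w V) + dg Q (ml w V) ≤ dg Q V

/-! ### From subspaces to ideals -/

/-- IMG: the image of an ideal. -/
def IMGStmt : Prop :=
  ∀ (K : Type) [Field K] (N n : ℕ) (Q I : Ideal (PR K N)), CI n Q → Hg I → Q ≤ I → ∀ i,
    im Q I i ≤ gp Q i ∧ Module.finrank K ↥(im Q I i) + hf I i = n.choose i ∧
    gp Q 1 * im Q I i ≤ im Q I (i + 1)

/-- UPI: the ideal generated by a subspace. -/
def UPIStmt : Prop :=
  ∀ (K : Type) [Field K] (N n i : ℕ) (Q : Ideal (PR K N)) (V : Submodule K (PR K N ⧸ Q)),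
    CI n Q → V ≤ gp Q i → Hg (upI Q V) ∧ Q ≤ upI Q V ∧
    hf (upI Q V) i + Module.finrank K V = n.choose i ∧
    hf (upI Q V) (i + 1) + dg Q V = n.choose (i + 1)

/-- ANI: the annihilator of a subspace. -/
def ANIStmt : Prop :=
  ∀ (K : Type) [Field K] [Infinite K] (N n : ℕ) (Q : Ideal (PR K N)), CI n Q →
    ∀ i j m : ℕ, i + j + m = n → ∀ V : Submodule K (PR K N ⧸ Q), V ≤ gp Q i →
    Hg (anI Q V) ∧ Q ≤ anI Q V ∧ hf (anI Q V) j = Module.finrank K ↥(gp Q m * V)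

/-- HE1: growth from degree 1 to degree 2. -/
def HE1Stmt : Prop :=
  ∀ (K : Type) [Field K] [Infinite K] (N n : ℕ) (Q I : Ideal (PR K N)), CI n Q → Hg I →
    Q ≤ I → hf I 2 ≤ (hf I 1).choose 2

/-- HED: growth from degree `n - 2` to degree `n - 1`. -/
def HEDStmt : Prop :=
  ∀ (K : Type) [Field K] [Infinite K] (N n : ℕ) (Q I : Ideal (PR K N)), CI (n + 2) Q →
    Hg I → Q ≤ I → (n + 2).choose 2 ≤ hf I n + (n + 2 - hf I (n + 1)).choose 2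

/-- HET: growth from degree `n - 1` to degree `n`. -/
def HETStmt : Prop :=
  ∀ (K : Type) [Field K] [Infinite K] (N n : ℕ) (Q I : Ideal (PR K N)), CI (n + 1) Q →
    Hg I → Q ≤ I → hf I (n + 1) ≠ 0 → hf I n = n + 1

/-- CLB: basic facts about `I : l` and `I + (l)`. -/
def CLBStmt : Prop :=
  ∀ (K : Type) [Field K] [Infinite K] (N n : ℕ) (Q I : Ideal (PR K N)) (l m : PR K N),
    CI (n + 1) Q → Hg I → Q ≤ I → l ∈ fm K N 1 → m ∈ fm K N 1 → l ∉ Q → l * m ∈ I →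
    (∀ i, hf (I ⊔ Ideal.span {l}) (i + 1) + hf (clI I l) i = hf I (i + 1)) ∧
    (∀ i, hf (clI I l) i ≤ hf (I ⊔ Ideal.span {m}) i) ∧
    Hg (clI I l) ∧ Q ≤ clI I l ∧ Hg (I ⊔ Ideal.span {l}) ∧
    ∃ Q' : Ideal (PR K N), CI n Q' ∧ Q' ≤ I ⊔ Ideal.span {l}

/-- RE5: a reducible quadric, five quadrics. -/
def RE5Stmt : Prop :=
  ∀ (K : Type) [Field K] [Infinite K] (N : ℕ) (Q I : Ideal (PR K N)) (l m : PR K N),
    CI 5 Q → Hg I → Q ≤ I → l ∈ fm K N 1 → m ∈ fm K N 1 → l ∉ Q → m ∉ Q → l * m ∈ I →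
    hf I 3 ≤ b2 (hf I 2)

/-- RQE: existence of a reducible quadric. -/
def RQEStmt : Prop :=
  ∀ (K : Type) [Field K] [IsAlgClosed K] (N n : ℕ) (Q I : Ideal (PR K N)), CI n Q → Hg I →
    Q ≤ I → 1 ≤ n → hf I 2 + 2 ≤ 2 * n →
    ∃ l m : PR K N, l ∈ fm K N 1 ∧ m ∈ fm K N 1 ∧ l ∉ Q ∧ m ∉ Q ∧ l * m ∈ I

/-- E52: growth from degree 2 to degree 3, five quadrics. -/
def E52Stmt : Prop :=
  ∀ (K : Type) [Field K] [IsAlgClosed K] (N : ℕ) (Q I : Ideal (PR K N)), CI 5 Q → Hg I →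
    Q ≤ I → hf I 3 ≤ b2 (hf I 2)

/-- RE6: a reducible quadric, six quadrics. -/
def RE6Stmt : Prop :=
  ∀ (K : Type) [Field K] [IsAlgClosed K] (N : ℕ) (Q I : Ideal (PR K N)) (l m : PR K N),
    CI 6 Q → Hg I → Q ≤ I → l ∈ fm K N 1 → m ∈ fm K N 1 → l ∉ Q → m ∉ Q → l * m ∈ I →
    (hf I 2 ≤ 10 → hf I 3 ≤ b2 (hf I 2))

/-- E6A: growth from degree 2 to degree 3, six quadrics, small values. -/
def E6AStmt : Prop :=
  ∀ (K : Type) [Field K] [IsAlgClosed K] (N : ℕ) (Q I : Ideal (PR K N)), CI 6 Q → Hg I →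
    Q ≤ I → hf I 2 ≤ 10 → hf I 3 ≤ b2 (hf I 2)

/-- R94: a reducible quadric and the values 9 and 4. -/
def R94Stmt : Prop :=
  ∀ (K : Type) [Field K] [IsAlgClosed K] (N : ℕ) (Q I : Ideal (PR K N)) (l m : PR K N),
    CI 6 Q → Hg I → Q ≤ I → l ∈ fm K N 1 → m ∈ fm K N 1 → l ∉ Q → m ∉ Q → l * m ∈ I →
    hf I 3 = 9 → hf I 4 ≤ 3

/-- P6A: subspaces of dimension at least 5 of degree 2. -/
def P6AStmt : Prop :=
  ∀ (K : Type) [Field K] [IsAlgClosed K] (N : ℕ) (Q : Ideal (PR K N))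
    (U : Submodule K (PR K N ⧸ Q)), CI 6 Q → U ≤ gp Q 2 → 5 ≤ Module.finrank K U →
    20 ≤ dg Q U + b2 (15 - Module.finrank K U)

/-- V33: small subspaces of degree 3. -/
def V33Stmt : Prop :=
  ∀ (K : Type) [Field K] [IsAlgClosed K] (N : ℕ) (Q : Ideal (PR K N))
    (V : Submodule K (PR K N ⧸ Q)), CI 6 Q → V ≤ gp Q 3 →
    (1 ≤ Module.finrank K V → 3 ≤ dg Q V) ∧ (2 ≤ Module.finrank K V → 5 ≤ dg Q V) ∧
    (3 ≤ Module.finrank K V → 6 ≤ dg Q V)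

/-- KC6: small subspaces of degree 2 with an element killed by a linear form. -/
def KC6Stmt : Prop :=
  ∀ (K : Type) [Field K] [IsAlgClosed K] (N : ℕ) (Q : Ideal (PR K N))
    (U : Submodule K (PR K N ⧸ Q)), CI 6 Q → U ≤ gp Q 2 → ¬ KF Q U →
    Module.finrank K U ≤ 4 → 20 ≤ dg Q U + b2 (15 - Module.finrank K U)

/-- T3P: the determinant trick. -/
def T3PStmt : Prop :=
  ∀ (K : Type) [Field K] [IsAlgClosed K] (N : ℕ) (Q : Ideal (PR K N))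
    (U U' : Submodule K (PR K N ⧸ Q)), CI 6 Q → U ≤ gp Q 2 → U' ≤ U →
    2 ≤ Module.finrank K U' →
    ∃ u ∈ U', u ≠ 0 ∧ ∃ w ∈ gp Q 2, w * u = 0 ∧ ∃ v ∈ U, w * v ≠ 0

/-- KF3: small subspaces of degree 2 without elements killed by linear forms. -/
def KF3Stmt : Prop :=
  ∀ (K : Type) [Field K] [IsAlgClosed K] (N : ℕ) (Q : Ideal (PR K N))
    (U : Submodule K (PR K N ⧸ Q)), CI 6 Q → U ≤ gp Q 2 → KF Q U →
    (Module.finrank K U = 1 → dg Q U = 6) ∧ (Module.finrank K U = 2 → 8 ≤ dg Q U) ∧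
    (Module.finrank K U = 3 → 9 ≤ dg Q U)

end Pool.EGH
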